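import Pool.Agent.Helper14.BC.Sd
import Pool.Agent.H99.BC.Neck

/-!
# Project BC, block NECK, piece BCN-LA: Lemma A for lists of points

For `τ₂ - τ₁ < 4` (or any fixed bound) everything is bounded by `FA`, `A_growth`.  Otherwise use the
parabolic element `p = par b a' a` of block GEO (`p` fixes `b • ∞` and moves `a' • ∞` to `a • ∞`; for
`SameEnd a a'` nothing is to be done, by `A_par`), the transport estimate of block GEO and the
displacements: `gam n τ₁` and the roots of lists `E ∋ b` behind are moved by `O(exp (τ₁ - τ₂))`,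
`gam n τ₂` by `O(1)`, the points `neckMid z.1 z.2` by `O(1 / (1 + τ₂ - τ₁))`.
`LA2` is the mirror image (frame `opp n`).
-/

set_option autoImplicit false

namespace Pool.Agent.Helper14.BC

open Pool.Agent.Helper11.BC

/-- a pair of lists on the two sides of a segment -/
structure NeckOK (n : G) (τ₁ τ₂ : ℝ) (A B : List G) : Prop where
  hA : 2 ≤ A.length
  hB : 2 ≤ B.length
  gA : Generic A
  gB : Generic B
  ah : ∀ a ∈ A, Ahead n τ₂ a
  be : ∀ b ∈ B, Behind n τ₁ b

/-- the interior point of a pair -/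
noncomputable def npt (z : List G × List G) : GP := GP.int (neckMid z.1 z.2)

/-- the root of a list as a point -/
noncomputable def rpt (n : G) (E : List G) : GP := GP.int (root n E)

/-! ### Comparison of lists of points and transport -/

/-- interior points at distance at most `δ`, or the same boundary point -/
private inductive LAR (δ : ℝ) : GP → GP → Prop
  | int {g h : G} : dist (pos g) (pos h) ≤ δ → LAR δ (GP.int g) (GP.int h)
  | bdp {g h : G} : SameEnd g h → LAR δ (GP.bdp g) (GP.bdp h)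

private theorem LA_A_cmp {N : ℕ} (S : Sys N) {δ : ℝ} (hδ : 0 ≤ δ) (s t : UpperHalfPlane)
    {X X' : List GP} (h : List.Forall₂ (LAR δ) X X') : ∀ pre : List GP, (pre ++ X).length = N →
      |S.A (pre ++ X) s t - S.A (pre ++ X') s t| ≤ X.length * (S.C * dist s t * δ) := by
  have hC : 0 ≤ S.C := le_trans zero_le_one S.one_le_C
  induction h with
  | nil =>
    intro pre _
    simp
  | @cons x x' X X' hx hX ih =>
    intro pre hl
    have h1 : |S.A (pre ++ x :: X) s t - S.A (pre ++ x' :: X) s t| ≤ S.C * dist s t * δ := by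
      cases hx with
      | int hd =>
        refine (S.A_lip pre X _ _ s t hl).trans ?_
        exact mul_le_mul_of_nonneg_left hd (mul_nonneg hC dist_nonneg)
      | bdp hd =>
        rw [Pool.Agent.H99.BC.A_same S pre X s t hd, sub_self, abs_zero]
        exact mul_nonneg (mul_nonneg hC dist_nonneg) hδ
    have h2 := ih (pre ++ [x']) (by
      rw [List.length_append, List.length_append, List.length_singleton]
      rw [List.length_append, List.length_cons] at hl
      omega)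
    rw [List.append_assoc, List.append_assoc, List.singleton_append, List.singleton_append] at h2
    have h3 := abs_sub_le (S.A (pre ++ x :: X) s t) (S.A (pre ++ x' :: X) s t)
      (S.A (pre ++ x' :: X') s t)
    rw [List.length_cons]
    push_cast
    linarith

private theorem LA_growth {N : ℕ} (S : Sys N) {X : List GP} (s t : UpperHalfPlane)
    (hX : X.length = N) : |S.F X s t| ≤ S.C * (1 + dist s t) := by
  have h1 := S.FA X s t hX
  have h2 := S.A_growth X s t hX
  have h3 := abs_sub_abs_le_abs_sub (S.F X s t) (S.A X s t)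
  linarith

/-- the transport estimate -/
private theorem LA_transport {N : ℕ} (S : Sys N) {δ : ℝ} (hδ : 0 ≤ δ) (s t : UpperHalfPlane)
    (p : G) {X X' : List GP} (hX : X.length = N)
    (h : List.Forall₂ (LAR δ) X (X'.map (p • ·))) :
    |S.F X s t - S.F X' s t| ≤ S.C * (4 + N * (dist s t * δ) + dist s (p • s) +
      dist t (p • t)) := by
  have hC : 0 ≤ S.C := le_trans zero_le_one S.one_le_C
  have hl := h.length_eq
  have hX' : (X'.map (p • ·)).length = N := hl.symm.trans hX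
  have h1 := LA_A_cmp S hδ s t h [] (by simpa using hX)
  rw [List.nil_append, List.nil_append, hX] at h1
  have h2 := S.F_inv p X' s t
  have h3 := S.F_add (X'.map (p • ·)) (p • s) s (p • t) hX'
  have h4 := S.F_add (X'.map (p • ·)) s t (p • t) hX'
  have h5 := LA_growth S (p • s) s hX'
  have h6 := LA_growth S t (p • t) hX'
  rw [dist_comm] at h5
  have h7 := S.FA X s t hX
  have h8 := S.FA (X'.map (p • ·)) s t hX'
  rw [abs_le] at *
  constructor <;> linarith [h1.1, h1.2, h5.1, h5.2, h6.1, h6.2, h7.1, h7.2, h8.1, h8.2]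

private theorem LA_dist_gam (n : G) (τ₁ τ₂ : ℝ) :
    dist (gam n τ₁) (gam n τ₂) = |τ₁ - τ₂| := by
  unfold gam
  rw [dist_smul, UpperHalfPlane.dist_of_re_eq (by rfl)]
  show dist (Real.log (Real.exp τ₁)) (Real.log (Real.exp τ₂)) = _
  rw [Real.log_exp, Real.log_exp, Real.dist_eq]

private theorem LA_est {L : ℝ} : L * (80 * Real.exp (-L / 2)) ≤ 160 := by
  have h1 := Real.add_one_le_exp (L / 2)
  have h2 : Real.exp (L / 2) * Real.exp (-L / 2) = 1 := by
    rw [← Real.exp_add]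
    simp [neg_div]
  have h3 := Real.exp_pos (-L / 2)
  nlinarith

private theorem LA_short {N : ℕ} (S : Sys N) {n : G} {τ₁ τ₂ : ℝ} (h1 : τ₁ ≤ τ₂)
    (h4 : τ₂ < τ₁ + 4) {X X' : List GP} (hX : X.length = N) (hX' : X'.length = N) :
    |S.F X (gam n τ₁) (gam n τ₂) - S.F X' (gam n τ₁) (gam n τ₂)| ≤ S.C * (40 + 160 * N) := by
  have hC : 0 ≤ S.C := le_trans zero_le_one S.one_le_C
  have h2 := LA_growth S (gam n τ₁) (gam n τ₂) hX
  have h3 := LA_growth S (gam n τ₁) (gam n τ₂) hX'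
  rw [LA_dist_gam, abs_of_nonpos (show τ₁ - τ₂ ≤ 0 by linarith)] at h2 h3
  have h5 := abs_sub (S.F X (gam n τ₁) (gam n τ₂)) (S.F X' (gam n τ₁) (gam n τ₂))
  have h6 : S.C * (1 + -(τ₁ - τ₂)) ≤ S.C * 5 := mul_le_mul_of_nonneg_left (by linarith) hC
  have h7 : 0 ≤ S.C * (N : ℝ) := by positivity
  linarith

private theorem LA_long {N : ℕ} (S : Sys N) {n p : G} {τ₁ τ₂ : ℝ} (h4 : τ₁ + 4 ≤ τ₂)
    {X X' : List GP} (hX : X.length = N)
    (h : List.Forall₂ (LAR (80 * Real.exp (-(τ₂ - τ₁) / 2))) X (X'.map (p • ·)))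
    (hs : dist (gam n τ₁) (p • gam n τ₁) ≤ 16) (ht : dist (gam n τ₂) (p • gam n τ₂) ≤ 16) :
    |S.F X (gam n τ₁) (gam n τ₂) - S.F X' (gam n τ₁) (gam n τ₂)| ≤ S.C * (40 + 160 * N) := by
  have hC : 0 ≤ S.C := le_trans zero_le_one S.one_le_C
  refine (LA_transport S (by positivity) _ _ p hX h).trans (mul_le_mul_of_nonneg_left ?_ hC)
  have h5 := LA_est (L := τ₂ - τ₁)
  rw [LA_dist_gam, abs_of_nonpos (show τ₁ - τ₂ ≤ 0 by linarith), neg_sub]
  have h6 := mul_le_mul_of_nonneg_left h5 (Nat.cast_nonneg (α := ℝ) N)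
  linarith

private theorem LA_root {τ₁ τ₂ : ℝ} (h4 : τ₁ + 4 ≤ τ₂) :
    16 * Real.exp (τ₁ - τ₂) ≤ 80 * Real.exp (-(τ₂ - τ₁) / 2) := by
  have h1 : Real.exp (τ₁ - τ₂) ≤ Real.exp (-(τ₂ - τ₁) / 2) := Real.exp_le_exp.2 (by linarith)
  have h2 := Real.exp_pos (-(τ₂ - τ₁) / 2)
  linarith

private theorem NeckOK.generic {n : G} {τ₁ τ₂ : ℝ} {A B : List G} (h : NeckOK n τ₁ τ₂ A B)
    (hτ : τ₁ < τ₂) : Generic (A ++ B) := by
  unfold Generic
  rw [List.pairwise_append]
  refine ⟨h.gA, h.gB, fun a ha b hb hab => ?_⟩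
  exact Pool.Agent.H99.BC.not_sameEnd hτ (h.be b hb) (h.ah a ha)
    (Pool.Agent.H99.BC.sameEnd_symm hab)

theorem LA1 {N : ℕ} (S : Sys N) : ∃ K : ℝ, 1 ≤ K ∧
    ∀ (n : G) (τ₁ τ₂ : ℝ) (zs : List (List G × List G)) (Ds : List (List G)) (a a' b : G),
      τ₁ ≤ τ₂ → zs.length + Ds.length + 2 = N →
      Ahead n τ₂ a → Ahead n τ₂ a' → Behind n τ₁ b →
      (∀ z ∈ zs, NeckOK n τ₁ τ₂ z.1 z.2 ∧ a ∈ z.1 ∧ a' ∈ z.1 ∧ b ∈ z.2) →
      (∀ E ∈ Ds, (∀ g ∈ E, Behind n τ₁ g) ∧ Generic E ∧ 2 ≤ E.length ∧ b ∈ E) →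
      |S.F (zs.map npt ++ (GP.bdp a :: (Ds.map (rpt n) ++ [GP.bdp b]))) (gam n τ₁) (gam n τ₂) -
        S.F (zs.map npt ++ (GP.bdp a' :: (Ds.map (rpt n) ++ [GP.bdp b]))) (gam n τ₁) (gam n τ₂)| ≤
          K := by
  have hC : 0 ≤ S.C := le_trans zero_le_one S.one_le_C
  refine ⟨S.C * (40 + 160 * N), ?_, ?_⟩
  · have h1 := S.one_le_C
    have h2 : 0 ≤ S.C * (N : ℝ) := by positivity
    linarith
  intro n τ₁ τ₂ zs Ds a a' b hτ hN ha ha' hb hz hD
  have hl : ∀ x : G, (zs.map npt ++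
      (GP.bdp x :: (Ds.map (rpt n) ++ [GP.bdp b]))).length = N := by
    intro x
    simp only [List.length_append, List.length_map, List.length_cons, List.length_nil]
    omega
  rcases lt_or_ge τ₂ (τ₁ + 4) with h4 | h4
  · exact LA_short S hτ h4 (hl a) (hl a')
  have hba := Pool.Agent.H99.BC.not_sameEnd (show τ₁ < τ₂ by linarith) hb ha
  have hba' := Pool.Agent.H99.BC.not_sameEnd (show τ₁ < τ₂ by linarith) hb ha'
  refine LA_long (p := Pool.Agent.H99.BC.par b a' a) S h4 (hl a) ?_ ?_ ?_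
  · rw [List.map_append, List.map_cons, List.map_append, List.map_map, List.map_map]
    refine List.rel_append ?_ (List.Forall₂.cons ?_ (List.rel_append ?_ ?_))
    · rw [List.forall₂_map_left_iff, List.forall₂_map_right_iff, List.forall₂_same]
      intro z hz'
      obtain ⟨h1, h2, h3, h5⟩ := hz z hz'
      refine LAR.int ?_
      rw [← Pool.Agent.H99.BC.smul_pos]
      exact Pool.Agent.H99.BC.disp_neck h4 (h1.generic (by linarith)) h1.hA h1.hB h1.ah h1.be
        h2 h3 h5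
    · exact LAR.bdp (Pool.Agent.H99.BC.par_map hba' hba)
    · rw [List.forall₂_map_left_iff, List.forall₂_map_right_iff, List.forall₂_same]
      intro E hE
      obtain ⟨h1, h2, h3, h5⟩ := hD E hE
      refine LAR.int ?_
      rw [← Pool.Agent.H99.BC.smul_pos]
      exact (Pool.Agent.H99.BC.disp_root (by linarith) h5 h1
        (Pool.Agent.H99.BC.rad_pos h2 h3 h1) ha ha').trans (LA_root h4)
    · exact List.Forall₂.cons (LAR.bdp (Pool.Agent.H99.BC.par_fix b a' a)) List.Forall₂.nil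
  · refine (Pool.Agent.H99.BC.disp_gam (by linarith) le_rfl hb ha ha').trans ?_
    have h1 : Real.exp (τ₁ - τ₂) ≤ 1 := Real.exp_le_one_iff.2 (by linarith)
    linarith
  · refine (Pool.Agent.H99.BC.disp_gam (by linarith) hτ hb ha ha').trans ?_
    rw [sub_self, Real.exp_zero]
    norm_num

theorem LA2 {N : ℕ} (S : Sys N) : ∃ K : ℝ, 1 ≤ K ∧
    ∀ (n : G) (τ₁ τ₂ : ℝ) (zs : List (List G × List G)) (Ds : List (List G)) (a b b' : G),
      τ₁ ≤ τ₂ → zs.length + Ds.length + 2 = N →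
      Ahead n τ₂ a → Behind n τ₁ b → Behind n τ₁ b' →
      (∀ z ∈ zs, NeckOK n τ₁ τ₂ z.1 z.2 ∧ a ∈ z.1 ∧ b ∈ z.2 ∧ b' ∈ z.2) →
      (∀ E ∈ Ds, (∀ g ∈ E, Ahead n τ₂ g) ∧ Generic E ∧ 2 ≤ E.length ∧ a ∈ E) →
      |S.F (zs.map npt ++ (Ds.map (rpt (opp n)) ++ [GP.bdp a, GP.bdp b])) (gam n τ₁) (gam n τ₂) -
        S.F (zs.map npt ++ (Ds.map (rpt (opp n)) ++ [GP.bdp a, GP.bdp b'])) (gam n τ₁) (gam n τ₂)| ≤
          K := by
  have hC : 0 ≤ S.C := le_trans zero_le_one S.one_le_C
  refine ⟨S.C * (40 + 160 * N), ?_, ?_⟩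
  · have h1 := S.one_le_C
    have h2 : 0 ≤ S.C * (N : ℝ) := by positivity
    linarith
  intro n τ₁ τ₂ zs Ds a b b' hτ hN ha hb hb' hz hD
  have hl : ∀ x : G, (zs.map npt ++
      (Ds.map (rpt (opp n)) ++ [GP.bdp a, GP.bdp x])).length = N := by
    intro x
    simp only [List.length_append, List.length_map, List.length_cons, List.length_nil]
    omega
  rcases lt_or_ge τ₂ (τ₁ + 4) with h4 | h4
  · exact LA_short S hτ h4 (hl b) (hl b')
  have hab : ¬ SameEnd a b := fun h =>
    Pool.Agent.H99.BC.not_sameEnd (show τ₁ < τ₂ by linarith) hb ha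
      (Pool.Agent.H99.BC.sameEnd_symm h)
  have hab' : ¬ SameEnd a b' := fun h =>
    Pool.Agent.H99.BC.not_sameEnd (show τ₁ < τ₂ by linarith) hb' ha
      (Pool.Agent.H99.BC.sameEnd_symm h)
  refine LA_long (p := Pool.Agent.H99.BC.par a b' b) S h4 (hl b) ?_ ?_ ?_
  · rw [List.map_append, List.map_append, List.map_map, List.map_map]
    refine List.rel_append ?_ (List.rel_append ?_ ?_)
    · rw [List.forall₂_map_left_iff, List.forall₂_map_right_iff, List.forall₂_same]
      intro z hz'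
      obtain ⟨h1, h2, h3, h5⟩ := hz z hz'
      refine LAR.int ?_
      rw [← Pool.Agent.H99.BC.smul_pos]
      exact Pool.Agent.H99.BC.disp_neck' h4 (h1.generic (by linarith)) h1.hA h1.hB h1.ah h1.be
        h2 h3 h5
    · rw [List.forall₂_map_left_iff, List.forall₂_map_right_iff, List.forall₂_same]
      intro E hE
      obtain ⟨h1, h2, h3, h5⟩ := hD E hE
      have hB : ∀ g ∈ E, Behind (opp n) (-τ₂) g := fun g hg =>
        (Pool.Agent.H99.BC.behind_flip n g (-τ₂)).2 (by rw [neg_neg]; exact h1 g hg)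
      refine LAR.int ?_
      rw [← Pool.Agent.H99.BC.smul_pos]
      refine (Pool.Agent.H99.BC.disp_root (n := opp n) (τ₁ := -τ₂) (τ₂ := -τ₁) (by linarith) h5
        hB (Pool.Agent.H99.BC.rad_pos h2 h3 hB)
        ((Pool.Agent.H99.BC.ahead_flip n b (-τ₁)).2 (by rw [neg_neg]; exact hb))
        ((Pool.Agent.H99.BC.ahead_flip n b' (-τ₁)).2 (by rw [neg_neg]; exact hb'))).trans ?_
      refine le_trans (le_of_eq ?_) (LA_root h4)
      congr 2
      ring
    · exact List.Forall₂.cons (LAR.bdp (Pool.Agent.H99.BC.par_fix a b' b))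
        (List.Forall₂.cons (LAR.bdp (Pool.Agent.H99.BC.par_map hab' hab)) List.Forall₂.nil)
  · refine (Pool.Agent.H99.BC.disp_gam' (by linarith) hτ ha hb hb').trans ?_
    rw [sub_self, Real.exp_zero]
    norm_num
  · refine (Pool.Agent.H99.BC.disp_gam' (by linarith) le_rfl ha hb hb').trans ?_
    have h1 : Real.exp (τ₁ - τ₂) ≤ 1 := Real.exp_le_one_iff.2 (by linarith)
    linarith

end Pool.Agent.Helper14.BC
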