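import Pool.Agent.Helper14.BC.Growth
import Pool.Agent.Helper14.BC.Flags
import Pool.Agent.Helper14.BC.LA
import Pool.Agent.H99.BC.RootClose
import Pool.Agent.H99.BC.Move

/-!
# Project BC, block NECK, piece BCN-XC: two frames, `Xi`

For `τ₂ - τ₁ < L₀(C₀)` use `gtd_growth` (both distances are bounded).  Otherwise replace first
`gam n' τ₁', gam n' τ₂'` by `gam n τ₁, gam n τ₂` with `gtd_ends`; put `φ X = S.F X (gam n τ₁) (gam n τ₂)`,
`L = τ₂ - τ₁`.
* `Lam`: `Lam_cmp` with `R p p' := p = p' ∨ ∃ g g', p = int g ∧ p' = int g' ∧ dist (pos g) (pos g') ≤ ε`,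
  `ε = K exp (-L)` (roots seen from the two frames, block GEO, Close), and `c = 2 C + N C L ε ≤ K'`
  (`FA`, `A_lip` point by point; the points `neckMid`, `int g`, `bdp g` do not depend on the frame).
* `Xi`: `exists_sign`; zero for mixed lists; for lists without elements of `A` compare
  `sdp n (cone (bdp n) φ) C'` with `sdp n (cone (bdp n') φ) C'` (`sdp_flag`, `LA1` for `zs = []`, `a = n`,
  `a' = n'` on the segment from `τ₁` to `τ₂ - C₀ - 2`, where `n'` is ahead; `φ` changes by `O(1)`), then with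
  `sdp n' (cone (bdp n') φ) C'` (`sd_cmp` with `R`).  Mirror image for lists of elements of `A`.
-/

set_option autoImplicit false

namespace Pool.Agent.Helper14.BC

open Pool.Agent.Helper11.BC

/-! ### Comparison of lists of points -/

/-- equal points, or close interior points -/
private def XcR (ε : ℝ) (p p' : GP) : Prop :=
  p = p' ∨ ∃ g g', p = GP.int g ∧ p' = GP.int g' ∧ dist (pos g) (pos g') ≤ ε

private theorem Xc_A {N : ℕ} (S : Sys N) {ε : ℝ} (hε : 0 ≤ ε) (s t : UpperHalfPlane)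
    {l l' : List GP} (h : List.Forall₂ (XcR ε) l l') : ∀ Y Z : List GP,
    (Y ++ (l ++ Z)).length = N →
    |S.A (Y ++ (l ++ Z)) s t - S.A (Y ++ (l' ++ Z)) s t| ≤
      l.length * (S.C * dist s t * ε) := by
  have hC : 0 ≤ S.C := zero_le_one.trans S.one_le_C
  induction h with
  | nil =>
    intro Y Z _
    simp
  | @cons x y l l' hxy hll ih =>
    intro Y Z hY
    have hl : (Y ++ x :: (l' ++ Z)).length = N := by
      rw [← hY]
      simp only [List.length_append, List.length_cons, List.cons_append, hll.length_eq]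
    have h1 : |S.A (Y ++ x :: (l ++ Z)) s t - S.A (Y ++ x :: (l' ++ Z)) s t| ≤
        l.length * (S.C * dist s t * ε) := by
      have := ih (Y ++ [x]) Z (by
        rw [← hY]
        simp only [List.length_append, List.length_cons, List.length_nil]
        omega)
      rwa [List.append_assoc, List.append_assoc, List.singleton_append,
        List.singleton_append] at this
    have h2 : |S.A (Y ++ x :: (l' ++ Z)) s t - S.A (Y ++ y :: (l' ++ Z)) s t| ≤
        S.C * dist s t * ε := by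
      rcases hxy with rfl | ⟨g, g', rfl, rfl, hd⟩
      · rw [sub_self, abs_zero]
        positivity
      · exact (S.A_lip Y (l' ++ Z) g g' s t hl).trans
          (mul_le_mul_of_nonneg_left hd (by positivity))
    have h3 := abs_sub_le (S.A (Y ++ x :: (l ++ Z)) s t) (S.A (Y ++ x :: (l' ++ Z)) s t)
      (S.A (Y ++ y :: (l' ++ Z)) s t)
    rw [List.cons_append, List.cons_append, List.length_cons]
    push_cast
    linarith

private theorem Xc_F {N : ℕ} (S : Sys N) {ε : ℝ} (hε : 0 ≤ ε) (s t : UpperHalfPlane)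
    {l l' : List GP} (h : List.Forall₂ (XcR ε) l l') (Y Z : List GP)
    (hY : (Y ++ (l ++ Z)).length = N) :
    |S.F (Y ++ (l ++ Z)) s t - S.F (Y ++ (l' ++ Z)) s t| ≤
      2 * S.C + l.length * (S.C * dist s t * ε) := by
  have hY' : (Y ++ (l' ++ Z)).length = N := by
    rw [← hY]
    simp only [List.length_append, h.length_eq]
  have h1 := S.FA _ s t hY
  have h2 := S.FA _ s t hY'
  have h3 := Xc_A S hε s t h Y Z hY
  rw [abs_le] at h1 h2 h3 ⊢
  constructor <;> linarith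

/-- Cutting off the last part of the segment. -/
private theorem Xc_cut {N : ℕ} (S : Sys N) {X X' : List GP} (hX : X.length = N)
    (hX' : X'.length = N) (s m t : UpperHalfPlane) {c D : ℝ}
    (h : |S.F X s m - S.F X' s m| ≤ c) (hd : dist m t ≤ D) :
    |S.F X s t - S.F X' s t| ≤ c + 2 * (S.C + S.C * D) := by
  have hC : 0 ≤ S.C := zero_le_one.trans S.one_le_C
  have h1 := S.F_add X s m t hX
  have h2 := S.F_add X' s m t hX'
  have h3 := Pool.Agent.H99.BC.abs_F_le S hX m t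
  have h4 := Pool.Agent.H99.BC.abs_F_le S hX' m t
  have h5 : S.C * dist m t ≤ S.C * D := mul_le_mul_of_nonneg_left hd hC
  rw [abs_le] at h h3 h4 ⊢
  constructor <;> linarith

/-- Cutting off the first part of the segment. -/
private theorem Xc_cut' {N : ℕ} (S : Sys N) {X X' : List GP} (hX : X.length = N)
    (hX' : X'.length = N) (s m t : UpperHalfPlane) {c D : ℝ}
    (h : |S.F X m t - S.F X' m t| ≤ c) (hd : dist s m ≤ D) :
    |S.F X s t - S.F X' s t| ≤ c + 2 * (S.C + S.C * D) := by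
  have hC : 0 ≤ S.C := zero_le_one.trans S.one_le_C
  have h1 := S.F_add X s m t hX
  have h2 := S.F_add X' s m t hX'
  have h3 := Pool.Agent.H99.BC.abs_F_le S hX s m
  have h4 := Pool.Agent.H99.BC.abs_F_le S hX' s m
  have h5 : S.C * dist s m ≤ S.C * D := mul_le_mul_of_nonneg_left hd hC
  rw [abs_le] at h h3 h4 ⊢
  constructor <;> linarith

private theorem Xc_ahead_self (n : G) (τ : ℝ) : Ahead n τ n := by
  unfold Ahead
  rw [inv_mul_cancel]
  simp

private theorem Xc_behind_self (n : G) (τ : ℝ) : Behind n τ (opp n) := by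
  unfold Behind
  rw [inv_mul_cancel_left]
  have h1 : (Pool.Agent.Helper11.BC.flip : G) 0 0 = 0 := rfl
  rw [h1, abs_zero]
  positivity

private theorem Xc_generic {E Q : List G} (h : Generic Q) (hE : E.Sublist Q) : Generic E :=
  List.Pairwise.sublist hE h

/-- the roots of a list seen from two frames -/
private theorem Xc_root {C₀ : ℝ} (h0 : 0 ≤ C₀) : ∃ K L₀ : ℝ, 0 ≤ K ∧
    ∀ (n n' : G) (τ₁ τ₂ τ₁' τ₂' : ℝ) (E : List G), L₀ ≤ τ₂ - τ₁ → τ₁' ≤ τ₂' →
      dist (gam n τ₁) (gam n' τ₁') ≤ C₀ → dist (gam n τ₂) (gam n' τ₂') ≤ C₀ →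
      Generic E → 2 ≤ E.length → (∀ g ∈ E, Behind n τ₁ g ∧ Behind n' τ₁' g) →
      dist (pos (root n E)) (pos (root n' E)) ≤ K * Real.exp (-(τ₂ - τ₁)) := by
  refine ⟨40 * Real.exp (3 * C₀), 3 * C₀ + 5, by positivity, ?_⟩
  intro n n' τ₁ τ₂ τ₁' τ₂' E hL h' h1 h2 hE hE2 hB
  exact Pool.Agent.H99.BC.root_close h0 (by linarith) h' h1 h2 (by linarith) hE hE2
    (fun g hg => (hB g hg).1) (fun g hg => (hB g hg).2)

/-- the comparison of the roots for all sublists -/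
private theorem Xc_rho {n n' : G} {ε : ℝ} {Q E : List G} (hE : E.Sublist Q)
    (h : ∀ E : List G, E.Sublist Q → 2 ≤ E.length →
      dist (pos (root n E)) (pos (root n' E)) ≤ ε) : XcR ε (rho n E) (rho n' E) := by
  unfold rho
  by_cases h1 : E.length ≤ 1
  · rw [if_pos h1, if_pos h1]
    exact Or.inl rfl
  · rw [if_neg h1, if_neg h1]
    exact Or.inr ⟨_, _, rfl, rfl, h E hE (by omega)⟩

private theorem Xc_mul_exp (x : ℝ) : x * Real.exp (-x) ≤ 1 := by
  have h1 : x ≤ Real.exp x := by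
    have := Real.add_one_le_exp x
    linarith
  calc x * Real.exp (-x) ≤ Real.exp x * Real.exp (-x) :=
        mul_le_mul_of_nonneg_right h1 (Real.exp_pos _).le
    _ = 1 := by rw [← Real.exp_add]; simp

/-- comparison with the same cone point -/
private theorem Xc_two {N : ℕ} (S : Sys N) {K : ℝ} (hK : 0 ≤ K) {m m' : G} {s t : UpperHalfPlane}
    {L : ℝ} (hL : dist s t = L) {Q : List G}
    (h : ∀ E : List G, E.Sublist Q → 2 ≤ E.length →
      dist (pos (root m E)) (pos (root m' E)) ≤ K * Real.exp (-L)) (Y Z : List GP)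
    (hl : Y.length + (Q.length + Z.length) = N) :
    |sd (rho m) (fun l => S.F (Y ++ (l ++ Z)) s t) Q -
      sd (rho m') (fun l => S.F (Y ++ (l ++ Z)) s t) Q| ≤
        (Q.length.factorial : ℝ) * (2 * S.C + Q.length * (S.C * K)) := by
  have hC : 0 ≤ S.C := zero_le_one.trans S.one_le_C
  have hε : 0 ≤ K * Real.exp (-L) := by positivity
  refine sd_cmp (XcR (K * Real.exp (-L))) (rho m) (rho m') Q
    (fun E hE _ => Xc_rho hE h) _ _ _ fun l l' hll hR => ?_
  refine (Xc_F S hε s t hR Y Z ?_).trans ?_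
  · simp only [List.length_append, hll]
    exact hl
  · rw [hll, hL]
    have h1 : S.C * L * (K * Real.exp (-L)) ≤ S.C * K := by
      have h2 := mul_le_mul_of_nonneg_left (Xc_mul_exp L) (mul_nonneg hC hK)
      calc S.C * L * (K * Real.exp (-L)) = S.C * K * (L * Real.exp (-L)) := by ring
        _ ≤ S.C * K * 1 := h2
        _ = S.C * K := mul_one _
    have h3 : (0 : ℝ) ≤ Q.length := Nat.cast_nonneg _
    have h4 := mul_le_mul_of_nonneg_left h1 h3
    linarith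

/-- all elements behind -/
private theorem Xc_behind {N : ℕ} (S : Sys N) {C₀ : ℝ} (h0 : 0 ≤ C₀) : ∃ K₀ L₀ : ℝ, 0 ≤ K₀ ∧
    ∀ (n n' : G) (τ₁ τ₂ τ₁' τ₂' : ℝ) (Q : List G), L₀ ≤ τ₂ - τ₁ → τ₁ ≤ τ₂ → τ₁' ≤ τ₂' →
      dist (gam n τ₁) (gam n' τ₁') ≤ C₀ → dist (gam n τ₂) (gam n' τ₂') ≤ C₀ →
      Generic Q → Q ≠ [] → Q.length + 1 = N → (∀ g ∈ Q, Behind n τ₁ g ∧ Behind n' τ₁' g) →
      |sdp n (cone (GP.bdp n) fun X => S.F X (gam n τ₁) (gam n τ₂)) Q -
        sdp n' (cone (GP.bdp n') fun X => S.F X (gam n τ₁) (gam n τ₂)) Q| ≤ K₀ := by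
  obtain ⟨K₁, hK₁, hLA⟩ := LA1 S
  obtain ⟨K₂, L₂, hK₂, hR⟩ := Xc_root h0
  have hC : 0 ≤ S.C := zero_le_one.trans S.one_le_C
  refine ⟨(N.factorial : ℝ) * (K₁ + 2 * (S.C + S.C * (C₀ + 2))) +
    (N.factorial : ℝ) * (2 * S.C + N * (S.C * K₂)), max L₂ (3 * C₀ + 4), by positivity, ?_⟩
  intro n n' τ₁ τ₂ τ₁' τ₂' Q hL h12 h12' hd1 hd2 hQ hQ0 hQl hQB
  have hL2 : L₂ ≤ τ₂ - τ₁ := (le_max_left _ _).trans hL
  have hL3 : 3 * C₀ + 4 ≤ τ₂ - τ₁ := (le_max_right _ _).trans hL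
  have hah := Pool.Agent.H99.BC.close_ahead h0 h12 h12' hd1 hd2 hL3
  have hdm : dist (gam n (τ₂ - C₀ - 2)) (gam n τ₂) ≤ C₀ + 2 := by
    rw [Pool.Agent.H99.BC.dist_gam, abs_le]
    constructor <;> linarith
  have hfac : (Q.length.factorial : ℝ) ≤ (N.factorial : ℝ) := by
    exact_mod_cast Nat.factorial_le (by omega)
  have hlen : ((Q.length : ℕ) : ℝ) ≤ N := by
    exact_mod_cast (by omega : Q.length ≤ N)
  have e1 : |sdp n (cone (GP.bdp n) fun X => S.F X (gam n τ₁) (gam n τ₂)) Q -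
      sdp n (cone (GP.bdp n') fun X => S.F X (gam n τ₁) (gam n τ₂)) Q| ≤
      (Q.length.factorial : ℝ) * (K₁ + 2 * (S.C + S.C * (C₀ + 2))) := by
    refine sdp_flag n _ _ Q hQ0 _ fun Ds b hb hDs hDl => ?_
    have hlenX : ∀ x : GP, (x :: (Ds.map (fun E => GP.int (root n E)) ++ [GP.bdp b])).length = N := by
      intro x
      simp only [List.length_cons, List.length_append, List.length_map, List.length_nil]
      omega
    show |S.F (GP.bdp n :: (Ds.map (fun E => GP.int (root n E)) ++ [GP.bdp b])) (gam n τ₁)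
      (gam n τ₂) - S.F (GP.bdp n' :: (Ds.map (fun E => GP.int (root n E)) ++ [GP.bdp b]))
      (gam n τ₁) (gam n τ₂)| ≤ _
    refine Xc_cut S (hlenX _) (hlenX _) _ (gam n (τ₂ - C₀ - 2)) _ ?_ hdm
    exact hLA n τ₁ (τ₂ - C₀ - 2) [] Ds n n' b (by linarith)
      (by simp only [List.length_nil]; omega) (Xc_ahead_self n _) hah (hQB b hb).1
      (fun z hz => absurd hz (by simp)) fun E hE =>
        ⟨fun g hg => (hQB g ((hDs E hE).1.subset hg)).1, Xc_generic hQ (hDs E hE).1,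
          (hDs E hE).2.2, (hDs E hE).2.1⟩
  have e2 : |sdp n (cone (GP.bdp n') fun X => S.F X (gam n τ₁) (gam n τ₂)) Q -
      sdp n' (cone (GP.bdp n') fun X => S.F X (gam n τ₁) (gam n τ₂)) Q| ≤
      (Q.length.factorial : ℝ) * (2 * S.C + Q.length * (S.C * K₂)) := by
    have h1 := Xc_two S hK₂ (m := n) (m' := n') (s := gam n τ₁) (t := gam n τ₂)
      (L := τ₂ - τ₁) (by rw [Pool.Agent.H99.BC.dist_gam, abs_sub_comm, abs_of_nonneg (by linarith)])
      (Q := Q) (fun E hE hE2 => hR n n' τ₁ τ₂ τ₁' τ₂' E hL2 h12' hd1 hd2 (Xc_generic hQ hE) hE2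
        fun g hg => hQB g (hE.subset hg)) [GP.bdp n'] [] (by simp; omega)
    have h2 : (fun l => S.F ([GP.bdp n'] ++ (l ++ [])) (gam n τ₁) (gam n τ₂)) =
        cone (GP.bdp n') fun X => S.F X (gam n τ₁) (gam n τ₂) := by
      funext l
      rw [List.append_nil, List.singleton_append]
      rfl
    rw [h2] at h1
    exact h1
  have e3 := abs_sub_le (sdp n (cone (GP.bdp n) fun X => S.F X (gam n τ₁) (gam n τ₂)) Q)
    (sdp n (cone (GP.bdp n') fun X => S.F X (gam n τ₁) (gam n τ₂)) Q)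
    (sdp n' (cone (GP.bdp n') fun X => S.F X (gam n τ₁) (gam n τ₂)) Q)
  have e4 : (Q.length.factorial : ℝ) * (K₁ + 2 * (S.C + S.C * (C₀ + 2))) ≤
      (N.factorial : ℝ) * (K₁ + 2 * (S.C + S.C * (C₀ + 2))) :=
    mul_le_mul_of_nonneg_right hfac (by positivity)
  have e5 : (Q.length.factorial : ℝ) * (2 * S.C + Q.length * (S.C * K₂)) ≤
      (N.factorial : ℝ) * (2 * S.C + N * (S.C * K₂)) := by
    refine mul_le_mul hfac ?_ (by positivity) (by positivity)
    have := mul_le_mul_of_nonneg_right hlen (mul_nonneg hC hK₂)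
    linarith
  linarith

/-- all elements ahead -/
private theorem Xc_ahead {N : ℕ} (S : Sys N) {C₀ : ℝ} (h0 : 0 ≤ C₀) : ∃ K₀ L₀ : ℝ, 0 ≤ K₀ ∧
    ∀ (n n' : G) (τ₁ τ₂ τ₁' τ₂' : ℝ) (Q : List G), L₀ ≤ τ₂ - τ₁ → τ₁ ≤ τ₂ → τ₁' ≤ τ₂' →
      dist (gam n τ₁) (gam n' τ₁') ≤ C₀ → dist (gam n τ₂) (gam n' τ₂') ≤ C₀ →
      Generic Q → Q ≠ [] → Q.length + 1 = N → (∀ g ∈ Q, Ahead n τ₂ g ∧ Ahead n' τ₂' g) →
      |sdm n (fun l => S.F (l ++ [GP.bdp (opp n)]) (gam n τ₁) (gam n τ₂)) Q -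
        sdm n' (fun l => S.F (l ++ [GP.bdp (opp n')]) (gam n τ₁) (gam n τ₂)) Q| ≤ K₀ := by
  obtain ⟨K₁, hK₁, hLA⟩ := LA2 S
  obtain ⟨K₂, L₂, hK₂, hR⟩ := Xc_root h0
  have hC : 0 ≤ S.C := zero_le_one.trans S.one_le_C
  refine ⟨(N.factorial : ℝ) * (K₁ + 2 * (S.C + S.C * (C₀ + 2))) +
    (N.factorial : ℝ) * (2 * S.C + N * (S.C * K₂)), max L₂ (3 * C₀ + 4), by positivity, ?_⟩
  intro n n' τ₁ τ₂ τ₁' τ₂' Q hL h12 h12' hd1 hd2 hQ hQ0 hQl hQA
  have hL2 : L₂ ≤ τ₂ - τ₁ := (le_max_left _ _).trans hL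
  have hL3 : 3 * C₀ + 4 ≤ τ₂ - τ₁ := (le_max_right _ _).trans hL
  have hbe := Pool.Agent.H99.BC.close_behind h0 h12 h12' hd1 hd2 hL3
  have hdm : dist (gam n τ₁) (gam n (τ₁ + C₀ + 2)) ≤ C₀ + 2 := by
    rw [Pool.Agent.H99.BC.dist_gam, abs_le]
    constructor <;> linarith
  have hfac : (Q.length.factorial : ℝ) ≤ (N.factorial : ℝ) := by
    exact_mod_cast Nat.factorial_le (by omega)
  have hlen : ((Q.length : ℕ) : ℝ) ≤ N := by
    exact_mod_cast (by omega : Q.length ≤ N)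
  have e1 : |sdm n (fun l => S.F (l ++ [GP.bdp (opp n)]) (gam n τ₁) (gam n τ₂)) Q -
      sdm n (fun l => S.F (l ++ [GP.bdp (opp n')]) (gam n τ₁) (gam n τ₂)) Q| ≤
      (Q.length.factorial : ℝ) * (K₁ + 2 * (S.C + S.C * (C₀ + 2))) := by
    refine sdp_flag (opp n) _ _ Q hQ0 _ fun Ds a ha hDs hDl => ?_
    have hlenX : ∀ x : GP,
        (Ds.map (fun E => GP.int (root (opp n) E)) ++ [GP.bdp a, x]).length = N := by
      intro x
      simp only [List.length_cons, List.length_append, List.length_map, List.length_nil]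
      omega
    have hass : ∀ x : GP, (Ds.map (fun E => GP.int (root (opp n) E)) ++ [GP.bdp a]) ++ [x] =
        Ds.map (fun E => GP.int (root (opp n) E)) ++ [GP.bdp a, x] := by
      intro x
      rw [List.append_assoc]
      rfl
    show |S.F ((Ds.map (fun E => GP.int (root (opp n) E)) ++ [GP.bdp a]) ++ [GP.bdp (opp n)])
      (gam n τ₁) (gam n τ₂) -
      S.F ((Ds.map (fun E => GP.int (root (opp n) E)) ++ [GP.bdp a]) ++ [GP.bdp (opp n')])
      (gam n τ₁) (gam n τ₂)| ≤ _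
    rw [hass, hass]
    refine Xc_cut' S (hlenX _) (hlenX _) _ (gam n (τ₁ + C₀ + 2)) _ ?_ hdm
    exact hLA n (τ₁ + C₀ + 2) τ₂ [] Ds a (opp n) (opp n') (by linarith)
      (by simp only [List.length_nil]; omega) (hQA a ha).1 (Xc_behind_self n _) hbe
      (fun z hz => absurd hz (by simp)) fun E hE =>
        ⟨fun g hg => (hQA g ((hDs E hE).1.subset hg)).1, Xc_generic hQ (hDs E hE).1,
          (hDs E hE).2.2, (hDs E hE).2.1⟩
  have e2 : |sdm n (fun l => S.F (l ++ [GP.bdp (opp n')]) (gam n τ₁) (gam n τ₂)) Q -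
      sdm n' (fun l => S.F (l ++ [GP.bdp (opp n')]) (gam n τ₁) (gam n τ₂)) Q| ≤
      (Q.length.factorial : ℝ) * (2 * S.C + Q.length * (S.C * K₂)) := by
    have h1 := Xc_two S hK₂ (m := opp n) (m' := opp n') (s := gam n τ₁) (t := gam n τ₂)
      (L := τ₂ - τ₁) (by rw [Pool.Agent.H99.BC.dist_gam, abs_sub_comm, abs_of_nonneg (by linarith)])
      (Q := Q) (fun E hE hE2 => ?_) [] [GP.bdp (opp n')] (by simp; omega)
    · exact h1
    · have h2 := hR (opp n) (opp n') (-τ₂) (-τ₁) (-τ₂') (-τ₁') E (by linarith) (by linarith)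
        (by rw [Pool.Agent.H99.BC.gam_flip, Pool.Agent.H99.BC.gam_flip, neg_neg, neg_neg]
            exact hd2)
        (by rw [Pool.Agent.H99.BC.gam_flip, Pool.Agent.H99.BC.gam_flip, neg_neg, neg_neg]
            exact hd1) (Xc_generic hQ hE) hE2
        (fun g hg => ⟨(Pool.Agent.H99.BC.behind_flip n g (-τ₂)).2
            (by rw [neg_neg]; exact (hQA g (hE.subset hg)).1),
          (Pool.Agent.H99.BC.behind_flip n' g (-τ₂')).2
            (by rw [neg_neg]; exact (hQA g (hE.subset hg)).2)⟩)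
      have h3 : -(-τ₁ - -τ₂) = -(τ₂ - τ₁) := by ring
      rw [h3] at h2
      exact h2
  have e3 := abs_sub_le (sdm n (fun l => S.F (l ++ [GP.bdp (opp n)]) (gam n τ₁) (gam n τ₂)) Q)
    (sdm n (fun l => S.F (l ++ [GP.bdp (opp n')]) (gam n τ₁) (gam n τ₂)) Q)
    (sdm n' (fun l => S.F (l ++ [GP.bdp (opp n')]) (gam n τ₁) (gam n τ₂)) Q)
  have e4 : (Q.length.factorial : ℝ) * (K₁ + 2 * (S.C + S.C * (C₀ + 2))) ≤
      (N.factorial : ℝ) * (K₁ + 2 * (S.C + S.C * (C₀ + 2))) :=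
    mul_le_mul_of_nonneg_right hfac (by positivity)
  have e5 : (Q.length.factorial : ℝ) * (2 * S.C + Q.length * (S.C * K₂)) ≤
      (N.factorial : ℝ) * (2 * S.C + N * (S.C * K₂)) := by
    refine mul_le_mul hfac ?_ (by positivity) (by positivity)
    have := mul_le_mul_of_nonneg_right hlen (mul_nonneg hC hK₂)
    linarith
  linarith

private theorem Xc_sign (A : Finset G) (C' : List G) : ∃ ε : ℝ, |ε| = 1 ∧ ∃ P Q : List G,
    (P.Sublist C' ∧ ∀ g ∈ P, g ∈ A) ∧ (Q.Sublist C' ∧ ∀ g ∈ Q, g ∉ A) ∧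
    (P = [] → Q = C') ∧ (Q = [] → P = C') ∧
    ∀ (n : G) (φ : Fn), Xi n A φ C' = ε * Xi2 n φ P Q := by
  classical
  obtain ⟨ε, h1, h2⟩ := exists_sign (M := ℝ) (fun g => g ∈ A) C'
  refine ⟨ε, h1, C'.filter (fun c => c ∈ A), C'.filter (fun c => ¬ c ∈ A),
    ⟨List.filter_sublist, fun g hg => by simpa using (List.mem_filter.1 hg).2⟩,
    ⟨List.filter_sublist, fun g hg => by simpa using (List.mem_filter.1 hg).2⟩,
    fun h => ?_, fun h => ?_, fun n φ => ?_⟩
  · rw [List.filter_eq_nil_iff] at h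
    rw [List.filter_eq_self]
    intro g hg
    simpa using h g hg
  · rw [List.filter_eq_nil_iff] at h
    rw [List.filter_eq_self]
    intro g hg
    simpa using h g hg
  · unfold Xi
    have h3 := h2 (Xi2 n φ)
    rw [smul_eq_mul] at h3
    convert h3 using 1

theorem Xi_close {N : ℕ} (hN : 3 ≤ N) (S : Sys N) : ∀ C₀ : ℝ, ∃ K₀ : ℝ,
    ∀ (n n' : G) (τ₁ τ₂ τ₁' τ₂' : ℝ) (A : Finset G) (C' : List G),
    τ₁ ≤ τ₂ → τ₁' ≤ τ₂' → Generic C' → C'.length + 1 = N →
    (∀ g ∈ C', g ∈ A → Ahead n τ₂ g ∧ Ahead n' τ₂' g) →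
    (∀ g ∈ C', g ∉ A → Behind n τ₁ g ∧ Behind n' τ₁' g) →
    dist (gam n τ₁) (gam n' τ₁') ≤ C₀ → dist (gam n τ₂) (gam n' τ₂') ≤ C₀ →
    |Xi n A (fun X => S.F X (gam n τ₁) (gam n τ₂)) C' -
      Xi n' A (fun X => S.F X (gam n τ₁) (gam n τ₂)) C'| ≤ K₀ := by
  intro C₀
  obtain ⟨C₁, hC₁⟩ : ∃ C₁, C₁ = max C₀ 0 := ⟨_, rfl⟩
  have h0 : 0 ≤ C₁ := hC₁ ▸ le_max_right _ _
  have h01 : C₀ ≤ C₁ := hC₁ ▸ le_max_left _ _
  obtain ⟨K₁, L₁, hK₁, hB⟩ := Xc_behind S h0
  obtain ⟨K₂, L₂, hK₂, hA⟩ := Xc_ahead S h0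
  have hC : 0 ≤ S.C := zero_le_one.trans S.one_le_C
  obtain ⟨L, hL⟩ : ∃ L, L = max (max L₁ L₂) 0 := ⟨_, rfl⟩
  have hL0 : 0 ≤ L := hL ▸ le_max_right _ _
  have hL1 : L₁ ≤ L := hL ▸ (le_max_left _ _).trans (le_max_left _ _)
  have hL2 : L₂ ≤ L := hL ▸ (le_max_right _ _).trans (le_max_left _ _)
  refine ⟨K₁ + K₂ + 2 * ((N.factorial : ℝ) * (S.C + S.C * L)), ?_⟩
  intro n n' τ₁ τ₂ τ₁' τ₂' A C' h12 h12' hG hlen hAh hBe hd1 hd2
  have hd1' := hd1.trans h01
  have hd2' := hd2.trans h01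
  have hfac : (C'.length.factorial : ℝ) ≤ (N.factorial : ℝ) := by
    exact_mod_cast Nat.factorial_le (by omega)
  have hrest : 0 ≤ 2 * ((N.factorial : ℝ) * (S.C + S.C * L)) := by positivity
  rcases le_or_gt L (τ₂ - τ₁) with hlong | hshort
  · obtain ⟨ε, hε, P, Q, ⟨hP, hPA⟩, ⟨hQ, hQA⟩, hPn, hQn, hXi⟩ := Xc_sign A C'
    rw [hXi, hXi, ← mul_sub, abs_mul, hε, one_mul]
    by_cases hP0 : P = []
    · have hQC := hPn hP0
      have hC'0 : C' ≠ [] := by
        rintro rfl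
        simp at hlen
        omega
      unfold Xi2
      rw [if_pos hP0, if_pos hP0, hQC]
      have h1 := hB n n' τ₁ τ₂ τ₁' τ₂' C' (hL1.trans hlong) h12 h12' hd1' hd2' hG hC'0 hlen
        fun g hg => hBe g hg (hQA g (hQC ▸ hg))
      linarith
    · by_cases hQ0 : Q = []
      · have hPC := hQn hQ0
        have hC'0 : C' ≠ [] := hPC ▸ hP0
        unfold Xi2
        rw [if_neg hP0, if_neg hP0, if_pos hQ0, if_pos hQ0, hPC, ← mul_sub, abs_mul, abs_pow,
          abs_neg, abs_one, one_pow, one_mul]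
        have h1 := hA n n' τ₁ τ₂ τ₁' τ₂' C' (hL2.trans hlong) h12 h12' hd1' hd2' hG hC'0 hlen
          fun g hg => hAh g hg (hPA g (hPC ▸ hg))
        linarith
      · unfold Xi2
        rw [if_neg hP0, if_neg hP0, if_neg hQ0, if_neg hQ0, sub_self, abs_zero]
        positivity
  · have hds : dist (gam n τ₁) (gam n τ₂) ≤ L := by
      rw [Pool.Agent.H99.BC.dist_gam, abs_sub_comm, abs_of_nonneg (by linarith)]
      exact hshort.le
    have hb : ∀ m : G, |Xi m A (fun X => S.F X (gam n τ₁) (gam n τ₂)) C'| ≤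
        (N.factorial : ℝ) * (S.C + S.C * L) := by
      intro m
      refine (Xi_abs (c := S.C + S.C * L) (by positivity) fun l hl => ?_).trans
        (mul_le_mul_of_nonneg_right hfac (by positivity))
      refine (Pool.Agent.H99.BC.abs_F_le S (hl.trans hlen) _ _).trans ?_
      have := mul_le_mul_of_nonneg_left hds hC
      linarith
    have h1 := hb n
    have h2 := hb n'
    rw [abs_le] at h1 h2 ⊢
    constructor <;> linarith

end Pool.Agent.Helper14.BC
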