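import Pool.Agent.Helper14.BC.LamClose
import Pool.Agent.Helper14.BC.XiClose

/-!
# Project BC, block NECK: two frames, assembly
-/

set_option autoImplicit false

namespace Pool.Agent.Helper14.BC

open Pool.Agent.Helper11.BC

theorem closeT {N : ℕ} (hN : 3 ≤ N) (S : Sys N) : ∀ C₀ : ℝ, ∃ K₀ : ℝ,
    ∀ (n n' : G) (τ₁ τ₂ τ₁' τ₂' : ℝ) (A : Finset G) (C' : List G),
    τ₁ ≤ τ₂ → τ₁' ≤ τ₂' → Generic C' → C'.length + 1 = N →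
    (∀ g ∈ C', g ∈ A → Ahead n τ₂ g ∧ Ahead n' τ₂' g) →
    (∀ g ∈ C', g ∉ A → Behind n τ₁ g ∧ Behind n' τ₁' g) →
    dist (gam n τ₁) (gam n' τ₁') ≤ C₀ → dist (gam n τ₂) (gam n' τ₂') ≤ C₀ →
    |gtd S n A C' (gam n τ₁) (gam n τ₂) - gtd S n' A C' (gam n' τ₁') (gam n' τ₂')| ≤ K₀ := by
  intro C₀
  obtain ⟨K₁, h1⟩ := Lam_close S C₀
  obtain ⟨K₂, h2⟩ := Xi_close hN S C₀
  obtain ⟨K₃, h3, h3'⟩ := gtd_ends S
  refine ⟨K₁ + K₂ + K₃ * (1 + C₀ + C₀), ?_⟩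
  intro n n' τ₁ τ₂ τ₁' τ₂' A C' ht ht' hg hl hA hB hd1 hd2
  have e1 := h1 n n' τ₁ τ₂ τ₁' τ₂' A C' ht ht' hg hl hA hB hd1 hd2
  have e2 := h2 n n' τ₁ τ₂ τ₁' τ₂' A C' ht ht' hg hl hA hB hd1 hd2
  have e3 := h3' n' A C' (gam n τ₁) (gam n τ₂) (gam n' τ₁') (gam n' τ₂') hl
  have e4 : K₃ * (1 + dist (gam n τ₁) (gam n' τ₁') + dist (gam n τ₂) (gam n' τ₂')) ≤
      K₃ * (1 + C₀ + C₀) := by
    apply mul_le_mul_of_nonneg_left _ (by linarith)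
    linarith
  have e5 : |gtd S n A C' (gam n τ₁) (gam n τ₂) - gtd S n' A C' (gam n τ₁) (gam n τ₂)| ≤ K₁ + K₂ := by
    unfold gtd
    have : ∀ a b c d : ℝ, |a - c| ≤ K₁ → |b - d| ≤ K₂ → |(a + b) - (c + d)| ≤ K₁ + K₂ := by
      intro a b c d h h'
      rw [show (a + b) - (c + d) = (a - c) + (b - d) by ring]
      exact (abs_add_le _ _).trans (add_le_add h h')
    exact this _ _ _ _ e1 e2
  have e6 := abs_sub_le (gtd S n A C' (gam n τ₁) (gam n τ₂)) (gtd S n' A C' (gam n τ₁) (gam n τ₂))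
    (gtd S n' A C' (gam n' τ₁') (gam n' τ₂'))
  linarith

end Pool.Agent.Helper14.BC
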