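import Pool.Agent.Helper14.BC.Sd

/-!
# Project BC, block NECK, piece BCN-INV: equivariance

`(h n)⁻¹ (h g) = n⁻¹ g`, so `xc`, `rad` are invariant and `root`, `lineBA`, `neckMid` are equivariant
(`lineBA`: the determinant `a₀₀ b₁₀ - a₁₀ b₀₀` is invariant under `a, b ↦ h a, h b`, because it is the entry
`-(a⁻¹ b)₁₀` up to sign, or by direct computation with `det h = 1`; in the case `det = 0` both sides are
`h * a`).  Then induction on the length, `(D.map f).eraseIdx i = (D.eraseIdx i).map f`
(`List.eraseIdx_map` / `dl_map`), and for `Sh` induction on the list.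
-/

set_option autoImplicit false

namespace Pool.Agent.Helper14.BC

open Pool.Agent.Helper11.BC

theorem xc_mul (h n g : G) : xc (h * n) (h * g) = xc n g := by
  unfold xc
  have e : (h * n)⁻¹ * (h * g) = n⁻¹ * g := by group
  rw [e]

private theorem Inv_rootAux (n : G) (D : List G) (L : List ℝ) (hL : D.map (xc n) = L) :
    root n D = if h : 0 < (lmax L - lmin L) / 2 then
      n * UpperHalfPlane.toSL2R ⟨⟨(lmax L + lmin L) / 2, (lmax L - lmin L) / 2⟩, h⟩ else n := by
  subst hL
  rfl

theorem root_mul (h n : G) (D : List G) : root (h * n) (D.map (h * ·)) = h * root n D := by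
  have e : (D.map (h * ·)).map (xc (h * n)) = D.map (xc n) := by
    rw [List.map_map]
    refine List.map_congr_left fun g _ => ?_
    exact xc_mul h n g
  rw [Inv_rootAux (h * n) _ _ e, Inv_rootAux n D _ rfl]
  split_ifs
  · rw [mul_assoc]
  · rfl

private theorem Inv_col (h c : G) (i : Fin 2) : (h * c) i 0 = h i 0 * c 0 0 + h i 1 * c 1 0 := by
  rw [Matrix.SpecialLinearGroup.coe_mul, Matrix.mul_apply, Fin.sum_univ_two]

private theorem Inv_lineAux (h a b : G) (d d' : ℝ) (hd : d' = d) (m m' : G)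
    (hm' : (m' : Matrix (Fin 2) (Fin 2) ℝ) =
      !![(h * a) 0 0, (h * b) 0 0 / d'; (h * a) 1 0, (h * b) 1 0 / d'])
    (hm : (m : Matrix (Fin 2) (Fin 2) ℝ) = !![a 0 0, b 0 0 / d; a 1 0, b 1 0 / d]) :
    m' = h * m := by
  subst hd
  apply Matrix.SpecialLinearGroup.ext
  intro i j
  rw [Matrix.SpecialLinearGroup.coe_mul, Matrix.mul_apply, Fin.sum_univ_two, hm, hm',
    Inv_col, Inv_col, Inv_col, Inv_col]
  fin_cases i <;> fin_cases j
  · simp
  · simp
    ring
  · simp
  · simp
    ring

theorem lineBA_mul (h a b : G) : lineBA (h * a) (h * b) = h * lineBA a b := by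
  have hd : h 0 0 * h 1 1 - h 0 1 * h 1 0 = 1 := by
    have := h.det_coe
    rw [Matrix.det_fin_two] at this
    exact this
  have hdet : (h * a) 0 0 * (h * b) 1 0 - (h * a) 1 0 * (h * b) 0 0 =
      a 0 0 * b 1 0 - a 1 0 * b 0 0 := by
    rw [Inv_col, Inv_col, Inv_col, Inv_col]
    linear_combination (a 0 0 * b 1 0 - a 1 0 * b 0 0) * hd
  unfold lineBA
  by_cases h0 : a 0 0 * b 1 0 - a 1 0 * b 0 0 = 0
  · rw [dif_pos h0, dif_pos (hdet.trans h0)]
  · rw [dif_neg h0, dif_neg (fun h1 => h0 (hdet.symm.trans h1))]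
    exact Inv_lineAux h a b _ _ hdet _ _ rfl rfl

private theorem Inv_headD (h : G) {A : List G} (hA : A ≠ []) :
    (A.map (h * ·)).headD 1 = h * A.headD 1 := by
  cases A with
  | nil => exact absurd rfl hA
  | cons a A => rfl

private theorem Inv_tail (h : G) (A : List G) : (A.map (h * ·)).tail = A.tail.map (h * ·) := by
  cases A <;> rfl

theorem neckMid_mul (h : G) {A B : List G} (hA : A ≠ []) (hB : B ≠ []) :
    neckMid (A.map (h * ·)) (B.map (h * ·)) = h * neckMid A B := by
  have h1 : neckLo (A.map (h * ·)) (B.map (h * ·)) = neckLo A B := by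
    unfold neckLo
    rw [Inv_headD h hA, Inv_headD h hB, Inv_tail, List.map_map, lineBA_mul]
    congr 1
    refine List.map_congr_left fun g _ => ?_
    simp only [Function.comp_apply, xc_mul]
  have h2 : neckHi (A.map (h * ·)) (B.map (h * ·)) = neckHi A B := by
    unfold neckHi
    rw [Inv_headD h hA, Inv_headD h hB, Inv_tail, List.map_map, lineBA_mul]
    congr 1
    refine List.map_congr_left fun g _ => ?_
    simp only [Function.comp_apply, xc_mul]
  unfold neckMid
  rw [h1, h2, Inv_headD h hA, Inv_headD h hB, lineBA_mul, mul_assoc]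

theorem rho_mul (h n : G) {D : List G} (hD : D ≠ []) : rho (h * n) (D.map (h * ·)) = h • rho n D := by
  unfold rho
  rw [List.length_map]
  split_ifs
  · rw [Inv_headD h hD, smul_bdp]
  · rw [root_mul, smul_int]

private theorem Inv_sd (ρ ρ' : List G → GP) (h : G)
    (hρ : ∀ D : List G, D ≠ [] → ρ' (D.map (h * ·)) = h • ρ D) (φ : Fn) (D : List G) :
    sd ρ' φ (D.map (h * ·)) = sd ρ (fun l => φ (l.map (h • ·))) D := by
  obtain ⟨n, hn⟩ : ∃ n, D.length = n := ⟨_, rfl⟩
  induction n generalizing D φ with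
  | zero =>
    rw [List.length_eq_zero_iff] at hn
    subst hn
    rfl
  | succ n ih =>
    have hD : D ≠ [] := by
      rintro rfl
      simp at hn
    have hD' : D.map (h * ·) ≠ [] := by
      intro h0
      exact hD (List.map_eq_nil_iff.1 h0)
    rw [sd_ne hD', sd_ne hD, dl_map]
    refine dl_congr fun i hi => ?_
    rw [ih _ _ (by have := length_face hi; omega)]
    congr 1
    funext l
    simp only [cone, hρ D hD, List.map_cons]

theorem sdp_mul (h n : G) (φ : Fn) (D : List G) :
    sdp (h * n) φ (D.map (h * ·)) = sdp n (fun l => φ (l.map (h • ·))) D :=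
  Inv_sd (rho n) (rho (h * n)) h (fun _ hD => rho_mul h n hD) φ D

private theorem Inv_opp (h n : G) : opp (h * n) = h * opp n := mul_assoc _ _ _

theorem sdm_mul (h n : G) (φ : Fn) (D : List G) :
    sdm (h * n) φ (D.map (h * ·)) = sdm n (fun l => φ (l.map (h • ·))) D := by
  unfold sdm
  rw [Inv_opp]
  exact Inv_sd (rho (opp n)) (rho (h * opp n)) h (fun _ hD => rho_mul h (opp n) hD) φ D

theorem J2_mul (h n : G) (φ : Fn) (A B : List G) :
    J2 (h * n) φ (A.map (h * ·)) (B.map (h * ·)) = J2 n (fun l => φ (l.map (h • ·))) A B := by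
  unfold J2
  rw [sdm_mul]
  congr 1
  funext l
  rw [sdp_mul]
  congr 1
  funext l'
  change φ (l.map (h • ·) ++ l'.map (h • ·)) = φ ((l ++ l').map (h • ·))
  rw [List.map_append]

private theorem Inv_d2 {T T' M : Type*} [AddCommGroup M] [Module ℝ M] (f : T → T')
    (Φ : List T' → List T' → M) (A B : List T) :
    d2 Φ (A.map f) (B.map f) = d2 (fun A' B' => Φ (A'.map f) (B'.map f)) A B := by
  unfold d2
  rw [dl_map, dl_map, List.length_map]

private theorem Inv_S2k (h n : G) (k : ℕ) (φ : Fn) (A B : List G) :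
    S2k (h * n) k φ (A.map (h * ·)) (B.map (h * ·)) = S2k n k (fun l => φ (l.map (h • ·))) A B := by
  induction k generalizing φ A B with
  | zero => exact J2_mul h n φ A B
  | succ k ih =>
    unfold S2k
    rw [List.length_map, List.length_map]
    split_ifs with hc
    · exact J2_mul h n φ A B
    · have hA : A ≠ [] := by
        rintro rfl
        exact hc (Or.inl (by simp))
      have hB : B ≠ [] := by
        rintro rfl
        exact hc (Or.inr (by simp))
      rw [Inv_d2, neckMid_mul h hA hB]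
      congr 1
      funext A' B'
      rw [ih]
      congr 1

theorem S2_mul (h n : G) (φ : Fn) (A B : List G) :
    S2 (h * n) φ (A.map (h * ·)) (B.map (h * ·)) = S2 n (fun l => φ (l.map (h • ·))) A B := by
  unfold S2
  rw [List.length_map, List.length_map]
  exact Inv_S2k h n _ φ A B

private theorem Inv_Sh {T T' M : Type*} [AddCommGroup M] [Module ℝ M] (f : T → T')
    (P : T → Prop) [DecidablePred P] (P' : T' → Prop) [DecidablePred P'] (C : List T)
    (hP : ∀ g ∈ C, (P' (f g) ↔ P g)) (Φ : List T' → List T' → M) :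
    Sh P' (C.map f) Φ = Sh P C (fun A B => Φ (A.map f) (B.map f)) := by
  induction C generalizing Φ with
  | nil => rfl
  | cons c C ih =>
    have ih' := fun Φ => ih (fun g hg => hP g (List.mem_cons_of_mem _ hg)) Φ
    have hc := hP c List.mem_cons_self
    rw [List.map_cons]
    unfold Sh
    by_cases h1 : P c
    · rw [if_pos h1, if_pos (hc.2 h1), ih']
      rfl
    · rw [if_neg h1, if_neg (fun h2 => h1 (hc.1 h2)), ih']
      congr 1
      funext A B
      rw [List.length_map]
      rfl

theorem Sc_mul (h n : G) (A A' : Finset G) (φ : Fn) (C : List G) (hA : ∀ g ∈ C, (h * g ∈ A' ↔ g ∈ A)) :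
    Sc (h * n) A' φ (C.map (h * ·)) = Sc n A (fun l => φ (l.map (h • ·))) C := by
  unfold Sc
  rw [Inv_Sh (h * ·) (fun g => g ∈ A) (fun g => g ∈ A') C hA]
  congr 1
  funext X Y
  exact S2_mul h n φ X Y

private theorem Inv_Lamk (h n : G) (A A' : Finset G) (k : ℕ) (φ : Fn) (C : List G)
    (hk : C.length = k) (hA : ∀ g ∈ C, (h * g ∈ A' ↔ g ∈ A)) :
    Lamk (h * n) A' k φ (C.map (h * ·)) = Lamk n A k (fun l => φ (l.map (h • ·))) C := by
  induction k generalizing φ C with
  | zero => rfl
  | succ k ih =>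
    have hC : C ≠ [] := by
      rintro rfl
      simp at hk
    unfold Lamk
    rw [Inv_headD h hC, Sc_mul h n A A' _ C hA, dl_map]
    have e1 : (fun l : List GP => cone (GP.int (h * C.headD 1)) φ (l.map (h • ·))) =
        cone (GP.int (C.headD 1)) (fun l => φ (l.map (h • ·))) := by
      funext l
      simp only [cone, List.map_cons, smul_int]
    have e2 : cone (GP.int (h * C.headD 1)) φ ((C.map (h * ·)).map GP.int) =
        cone (GP.int (C.headD 1)) (fun l => φ (l.map (h • ·))) (C.map GP.int) := by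
      rw [← e1]
      change _ = cone (GP.int (h * C.headD 1)) φ ((C.map GP.int).map (h • ·))
      rw [List.map_map, List.map_map]
      rfl
    have e3 : dl (fun l' => Lamk (h * n) A' k (cone (GP.int (h * C.headD 1)) φ) (l'.map (h * ·))) C =
        dl (Lamk n A k (cone (GP.int (C.headD 1)) (fun l => φ (l.map (h • ·))))) C := by
      refine dl_congr fun i hi => ?_
      rw [ih _ _ (by have := length_face hi; omega) fun g hg => hA g (List.mem_of_mem_eraseIdx hg),
        e1]
    rw [e1, e2, e3]

theorem Lam_mul (h n : G) (A A' : Finset G) (φ : Fn) (C : List G) (hA : ∀ g ∈ C, (h * g ∈ A' ↔ g ∈ A)) :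
    Lam (h * n) A' φ (C.map (h * ·)) = Lam n A (fun l => φ (l.map (h • ·))) C := by
  unfold Lam
  rw [List.length_map]
  exact Inv_Lamk h n A A' _ φ C rfl hA

private theorem Inv_Xi2 (h n : G) (φ : Fn) (A B : List G) :
    Xi2 (h * n) φ (A.map (h * ·)) (B.map (h * ·)) = Xi2 n (fun l => φ (l.map (h • ·))) A B := by
  unfold Xi2
  simp only [List.map_eq_nil_iff]
  split_ifs
  · rw [sdp_mul]
    congr 1
  · rw [sdm_mul, List.length_map]
    congr 2
    funext l
    rw [List.map_append, Inv_opp]
    rfl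
  · rfl

theorem Xi_mul (h n : G) (A A' : Finset G) (φ : Fn) (C : List G) (hA : ∀ g ∈ C, (h * g ∈ A' ↔ g ∈ A)) :
    Xi (h * n) A' φ (C.map (h * ·)) = Xi n A (fun l => φ (l.map (h • ·))) C := by
  unfold Xi
  rw [Inv_Sh (h * ·) (fun g => g ∈ A) (fun g => g ∈ A') C hA]
  congr 1
  funext X Y
  exact Inv_Xi2 h n φ X Y

theorem gtd_mul {N : ℕ} (S : Sys N) (h n : G) (A A' : Finset G) (C' : List G) (s t : UpperHalfPlane)
    (hA : ∀ g ∈ C', (h * g ∈ A' ↔ g ∈ A)) :
    gtd S (h * n) A' (C'.map (h * ·)) (h • s) (h • t) = gtd S n A C' s t := by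
  unfold gtd
  rw [Lam_mul h n A A' _ C' hA, Xi_mul h n A A' _ C' hA]
  simp only [S.F_inv]

end Pool.Agent.Helper14.BC
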