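import Pool.Agent.Helper14.BC.NeckAB
import Pool.Agent.Helper14.BC.Close
import Pool.Agent.Helper14.BC.Inv

/-!
# Project BC, block NECK: assembly

`neck_id`: for `φ X = S.F X s t`: `φ (C.map int) - dl (gtd S n A · s t) C =`
`Lam n A (dl φ) C + Sh C (fun A B => S2 n φ A B - d2 (Xi2 n φ) A B)` by `Lam_dl`, `Sc`, `dl_Sh`, `Sh_sub`.
-/

set_option autoImplicit false

namespace Pool.Agent.Helper14.BC

open Pool.Agent.Helper11.BC

open Classical in
theorem neck_id {N : ℕ} (S : Sys N) (n : G) (A : Finset G) (C : List G) (s t : UpperHalfPlane) :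
    S.F (C.map GP.int) s t - dl (fun C' => gtd S n A C' s t) C =
      Lam n A (dl fun X => S.F X s t) C +
        Sh (fun g => g ∈ A) C (fun A B => S2 n (fun X => S.F X s t) A B -
          d2 (Xi2 n (fun X => S.F X s t)) A B) := by
  have h1 : dl (fun C' => gtd S n A C' s t) C =
      dl (Lam n A fun X => S.F X s t) C + dl (Xi n A fun X => S.F X s t) C := by
    rw [← dl_add]
    rfl
  have h2 : dl (Xi n A fun X => S.F X s t) C =
      Sh (fun g => g ∈ A) C (d2 (Xi2 n fun X => S.F X s t)) := by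
    rw [← dl_Sh]
    rfl
  have h3 : Sc n A (fun X => S.F X s t) C =
      Sh (fun g => g ∈ A) C (S2 n fun X => S.F X s t) := rfl
  rw [h1, Lam_dl, Sh_sub, h2, h3]
  ring

theorem neckC {N : ℕ} (hN : 3 ≤ N) (S : Sys N) : ∃ K : ℝ, 1 ≤ K ∧
    ∀ (n : G) (τ₁ τ₂ : ℝ) (A : Finset G) (C : List G), τ₁ ≤ τ₂ → Generic C → C.length = N →
    (∀ g ∈ C, g ∈ A → Ahead n τ₂ g) → (∀ g ∈ C, g ∉ A → Behind n τ₁ g) →
    |S.F (C.map GP.int) (gam n τ₁) (gam n τ₂) -
      dl (fun C' => gtd S n A C' (gam n τ₁) (gam n τ₂)) C| ≤ K := by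
  classical
  obtain ⟨K₀, hK₀, h⟩ := neckAB hN S
  have hC1 := S.one_le_C
  have hnn : 0 ≤ 2 * (N : ℝ) * (N.factorial : ℝ) * (2 * S.C) := by positivity
  refine ⟨2 * (N : ℝ) * (N.factorial : ℝ) * (2 * S.C) + K₀, by linarith, ?_⟩
  intro n τ₁ τ₂ A C ht hg hl hA hB
  rw [neck_id]
  refine (abs_add_le _ _).trans (add_le_add ?_ ?_)
  · have h1 := Lam_abs (n := n) (A := A) (φ := dl fun X => S.F X (gam n τ₁) (gam n τ₂)) (C' := C)
      (c := 2 * S.C) (by linarith) (fun l hll => by
        rw [hl] at hll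
        rw [S.F_bd l _ _ hll]
        refine (abs_sub _ _).trans ?_
        have h2 := S.f0_bdd (gam n τ₁) l hll
        have h3 := S.f0_bdd (gam n τ₂) l hll
        linarith)
    rw [hl] at h1
    exact h1
  · obtain ⟨ε, hε, hS⟩ := exists_sign (M := ℝ) (fun g => g ∈ A) C
    rw [hS, smul_eq_mul, abs_mul, hε, one_mul]
    refine h n τ₁ τ₂ _ _ ht ?_ ?_ ?_ ?_ ?_
    · rw [← hl]
      have := List.length_eq_length_filter_add (l := C) (fun c => decide (c ∈ A))
      rw [this]
      congr 2
      exact List.filter_congr fun x _ => by simp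
    · exact hg.sublist List.filter_sublist
    · exact hg.sublist List.filter_sublist
    · intro a ha
      rw [List.mem_filter] at ha
      exact hA a ha.1 (by simpa using ha.2)
    · intro b hb
      rw [List.mem_filter] at hb
      exact hB b hb.1 (by simpa using hb.2)

theorem exists_neck {N : ℕ} (hN : 3 ≤ N) (S : Sys N) : Nonempty (Neck S) := by
  obtain ⟨K₁, h1, h1'⟩ := neckC hN S
  obtain ⟨K₂, h2, h2'⟩ := gtd_growth S
  refine ⟨{ gt := fun n A C' s t => gtd S n A C' s t
            K := max K₁ K₂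
            one_le_K := le_max_of_le_left h1
            gt_add := fun n A C' s t u h => gtd_add S n A C' s t u h
            gt_growth := ?_
            gt_inv := fun h n A A' C' s t hA => gtd_mul S h n A A' C' s t hA
            neck := ?_
            close := closeT hN S }⟩
  · intro n A C' s t h
    refine (h2' n A C' s t h).trans (mul_le_mul_of_nonneg_right (le_max_right _ _) ?_)
    have := dist_nonneg (x := s) (y := t)
    linarith
  · intro n τ₁ τ₂ A C ht hg hl hA hB
    exact (h1' n τ₁ τ₂ A C ht hg hl hA hB).trans (le_max_left _ _)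

end Pool.Agent.Helper14.BC
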