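import Pool.Agent.Helper11.BC.Defs

/-!
# Project BC, block NECK: algebra of alternating sums over faces
-/

set_option autoImplicit false

namespace Pool.Agent.Helper14.BC

open Pool.Agent.Helper11.BC

section
variable {T T' M M' : Type*} [AddCommGroup M] [Module ℝ M] [AddCommGroup M'] [Module ℝ M']

@[simp] theorem dl_nil (Φ : List T → M) : dl Φ [] = 0 := by
  simp [dl]

theorem dl_cons (Φ : List T → M) (x : T) (l : List T) :
    dl Φ (x :: l) = Φ l - dl (fun l' => Φ (x :: l')) l := by
  unfold dl
  rw [List.length_cons, Finset.sum_range_succ']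
  simp only [pow_zero, one_smul, List.eraseIdx_cons_zero, List.eraseIdx_cons_succ]
  rw [add_comm, sub_eq_add_neg, ← Finset.sum_neg_distrib]
  congr 1
  refine Finset.sum_congr rfl fun i _ => ?_
  rw [pow_succ]
  simp

theorem dl_congr {Φ Ψ : List T → M} {l : List T}
    (h : ∀ i < l.length, Φ (l.eraseIdx i) = Ψ (l.eraseIdx i)) : dl Φ l = dl Ψ l := by
  unfold dl
  exact Finset.sum_congr rfl fun i hi => by rw [h i (Finset.mem_range.1 hi)]

theorem dl_add (Φ Ψ : List T → M) (l : List T) : dl (fun x => Φ x + Ψ x) l = dl Φ l + dl Ψ l := by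
  unfold dl
  rw [← Finset.sum_add_distrib]
  exact Finset.sum_congr rfl fun i _ => by rw [smul_add]

theorem dl_neg (Φ : List T → M) (l : List T) : dl (fun x => - Φ x) l = - dl Φ l := by
  unfold dl
  rw [← Finset.sum_neg_distrib]
  exact Finset.sum_congr rfl fun i _ => by rw [smul_neg]

theorem dl_sub (Φ Ψ : List T → M) (l : List T) : dl (fun x => Φ x - Ψ x) l = dl Φ l - dl Ψ l := by
  simp only [sub_eq_add_neg]
  rw [dl_add, dl_neg]

theorem dl_smul (c : ℝ) (Φ : List T → M) (l : List T) :
    dl (fun x => c • Φ x) l = c • dl Φ l := by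
  unfold dl
  rw [Finset.smul_sum]
  exact Finset.sum_congr rfl fun i _ => smul_comm _ _ _

theorem dl_zero (l : List T) : dl (fun _ => (0 : M)) l = 0 := by
  simp [dl]

theorem dl_lin (f : M →ₗ[ℝ] M') (Φ : List T → M) (l : List T) :
    dl (fun x => f (Φ x)) l = f (dl Φ l) := by
  unfold dl
  rw [map_sum]
  exact Finset.sum_congr rfl fun i _ => by rw [map_smul]

/-- Alternating sums over faces twice. -/
theorem dl_dl (Φ : List T → M) (l : List T) : dl (dl Φ) l = 0 := by
  induction l generalizing Φ with
  | nil => simp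
  | cons x l ih =>
    rw [dl_cons]
    have h : dl (fun l' => dl Φ (x :: l')) l = dl (fun l' => Φ l' - dl (fun l'' => Φ (x :: l'')) l') l :=
      dl_congr fun i _ => dl_cons _ _ _
    rw [h, dl_sub, ih, sub_zero, sub_self]

theorem dl_map (f : T → T') (Φ : List T' → M) (l : List T) :
    dl Φ (l.map f) = dl (fun l' => Φ (l'.map f)) l := by
  induction l generalizing Φ with
  | nil => simp
  | cons x l ih =>
    rw [List.map_cons, dl_cons, dl_cons, ih]
    rfl

/-- The Leibniz rule. -/
theorem dl_append (Φ : List T → M) (l l' : List T) :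
    dl Φ (l ++ l') = dl (fun a => Φ (a ++ l')) l + (-1 : ℝ) ^ l.length • dl (fun b => Φ (l ++ b)) l' := by
  induction l generalizing Φ with
  | nil => simp
  | cons x l ih =>
    rw [List.cons_append, dl_cons, dl_cons, ih, List.length_cons, pow_succ]
    simp only [List.cons_append, mul_neg, mul_one, neg_smul]
    abel

theorem dl_append_singleton (Φ : List T → M) (l : List T) (x : T) :
    dl Φ (l ++ [x]) = dl (fun a => Φ (a ++ [x])) l + (-1 : ℝ) ^ l.length • Φ l := by
  rw [dl_append, dl_cons]
  simp

theorem abs_dl_le {Φ : List T → ℝ} {l : List T} {c : ℝ}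
    (h : ∀ i < l.length, |Φ (l.eraseIdx i)| ≤ c) : |dl Φ l| ≤ l.length * c := by
  unfold dl
  refine (Finset.abs_sum_le_sum_abs _ _).trans ?_
  have h1 : ∀ i ∈ Finset.range l.length, |(-1 : ℝ) ^ i • Φ (l.eraseIdx i)| ≤ c := by
    intro i hi
    rw [smul_eq_mul, abs_mul, abs_pow, abs_neg, abs_one, one_pow, one_mul]
    exact h i (Finset.mem_range.1 hi)
  refine (Finset.sum_le_sum h1).trans ?_
  simp

theorem length_face {l : List T} {i : ℕ} (h : i < l.length) :
    (l.eraseIdx i).length + 1 = l.length := by
  rw [List.length_eraseIdx_of_lt h]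
  omega

end

/-! ### Pairs of lists and the shuffle operator -/

section
variable {T M M' : Type*} [AddCommGroup M] [Module ℝ M] [AddCommGroup M'] [Module ℝ M']

/-- The alternating sum over the faces of a pair of lists. -/
noncomputable def d2 (Φ : List T → List T → M) (A B : List T) : M :=
  dl (fun A' => Φ A' B) A + (-1 : ℝ) ^ A.length • dl (fun B' => Φ A B') B

/-- The shuffle operator: the list `C` is split into its elements with `P` and those without. -/
noncomputable def Sh (P : T → Prop) [DecidablePred P] : List T → (List T → List T → M) → M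
  | [], Φ => Φ [] []
  | c :: C, Φ =>
    if P c then Sh P C (fun A B => Φ (c :: A) B)
    else Sh P C (fun A B => (-1 : ℝ) ^ A.length • Φ A (c :: B))

theorem d2_congr {Φ Ψ : List T → List T → M} {A B : List T}
    (hA : ∀ i < A.length, Φ (A.eraseIdx i) B = Ψ (A.eraseIdx i) B)
    (hB : ∀ i < B.length, Φ A (B.eraseIdx i) = Ψ A (B.eraseIdx i)) : d2 Φ A B = d2 Ψ A B := by
  unfold d2
  rw [dl_congr (Φ := fun A' => Φ A' B) (Ψ := fun A' => Ψ A' B) hA,
    dl_congr (Φ := fun B' => Φ A B') (Ψ := fun B' => Ψ A B') hB]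

theorem d2_sub (Φ Ψ : List T → List T → M) (A B : List T) :
    d2 (fun a b => Φ a b - Ψ a b) A B = d2 Φ A B - d2 Ψ A B := by
  unfold d2
  rw [dl_sub (fun A' => Φ A' B), dl_sub (fun B' => Φ A B'), smul_sub]
  abel

theorem d2_smul (c : ℝ) (Φ : List T → List T → M) (A B : List T) :
    d2 (fun a b => c • Φ a b) A B = c • d2 Φ A B := by
  unfold d2
  rw [dl_smul c (fun A' => Φ A' B), dl_smul c (fun B' => Φ A B'), smul_add, smul_comm c]

theorem dl_comm (Φ : List T → List T → M) (A B : List T) :
    dl (fun A' => dl (fun B' => Φ A' B') B) A = dl (fun B' => dl (fun A' => Φ A' B') A) B := by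
  unfold dl
  simp only [Finset.smul_sum]
  rw [Finset.sum_comm]
  exact Finset.sum_congr rfl fun i _ => Finset.sum_congr rfl fun j _ => smul_comm _ _ _

theorem d2_d2 (Φ : List T → List T → M) (A B : List T) : d2 (d2 Φ) A B = 0 := by
  have h1 : dl (fun A' => d2 Φ A' B) A =
      -((-1 : ℝ) ^ A.length • dl (fun A' => dl (fun B' => Φ A' B') B) A) := by
    have e : dl (fun A' => d2 Φ A' B) A =
        dl (fun A' => dl (fun A'' => Φ A'' B) A' +
          -((-1 : ℝ) ^ A.length • dl (fun B' => Φ A' B') B)) A := by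
      refine dl_congr fun i hi => ?_
      simp only [d2]
      congr 1
      rw [← length_face hi, pow_succ]
      simp
    rw [e, dl_add, dl_neg, dl_smul]
    have e2 := dl_dl (fun A'' => Φ A'' B) A
    rw [e2, zero_add]
  have h2 : dl (fun B' => d2 Φ A B') B = dl (fun B' => dl (fun A' => Φ A' B') A) B := by
    simp only [d2]
    rw [dl_add, dl_smul]
    have e2 := dl_dl (fun B' => Φ A B') B
    rw [e2, smul_zero, add_zero]
  rw [d2, h1, h2, dl_comm]
  simp

theorem abs_d2_le {Φ : List T → List T → ℝ} {A B : List T} {c : ℝ}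
    (hA : ∀ i < A.length, |Φ (A.eraseIdx i) B| ≤ c)
    (hB : ∀ i < B.length, |Φ A (B.eraseIdx i)| ≤ c) :
    |d2 Φ A B| ≤ ((A.length + B.length : ℕ) : ℝ) * c := by
  unfold d2
  refine (abs_add_le _ _).trans ?_
  rw [smul_eq_mul, abs_mul, abs_pow, abs_neg, abs_one, one_pow, one_mul]
  have h1 := abs_dl_le (Φ := fun A' => Φ A' B) hA
  have h2 := abs_dl_le (Φ := fun B' => Φ A B') hB
  push_cast
  linarith

variable (P : T → Prop) [DecidablePred P]

/-- The shuffle operator is one value with a sign that depends only on `C`. -/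
theorem exists_sign (C : List T) : ∃ ε : ℝ, |ε| = 1 ∧ ∀ Φ : List T → List T → M,
    Sh P C Φ = ε • Φ (C.filter (fun c => P c)) (C.filter (fun c => ¬ P c)) := by
  induction C with
  | nil => exact ⟨1, by simp, fun Φ => by simp [Sh]⟩
  | cons c C ih =>
    obtain ⟨ε, h1, h2⟩ := ih
    by_cases hc : P c
    · refine ⟨ε, h1, fun Φ => ?_⟩
      simp only [Sh, hc, if_true, h2, List.filter_cons, decide_true, not_true_eq_false,
        decide_false, if_false, Bool.false_eq_true]
    · refine ⟨ε * (-1) ^ (C.filter (fun c => P c)).length, ?_, fun Φ => ?_⟩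
      · rw [abs_mul, h1, abs_pow, abs_neg, abs_one, one_pow, one_mul]
      · simp only [Sh, hc, if_false, h2, List.filter_cons, decide_false, not_false_eq_true,
          decide_true, if_true, Bool.false_eq_true, smul_smul]

theorem Sh_sub (C : List T) (Φ Ψ : List T → List T → M) :
    Sh P C (fun A B => Φ A B - Ψ A B) = Sh P C Φ - Sh P C Ψ := by
  obtain ⟨ε, -, h⟩ := exists_sign (M := M) P C
  rw [h, h, h, smul_sub]

/-- The shuffle operator commutes with the boundaries. -/
theorem dl_Sh (C : List T) (Φ : List T → List T → M) :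
    dl (fun C' => Sh P C' Φ) C = Sh P C (d2 Φ) := by
  induction C generalizing Φ with
  | nil => simp [Sh, d2]
  | cons c C ih =>
    rw [dl_cons]
    by_cases hc : P c
    · simp only [Sh, hc, if_true]
      rw [ih (fun A B => Φ (c :: A) B), ← Sh_sub]
      congr 1
      funext A B
      simp only [d2]
      rw [dl_cons, List.length_cons, pow_succ]
      simp only [mul_neg, mul_one, neg_smul]
      abel
    · simp only [Sh, hc, if_false]
      rw [ih (fun A B => (-1 : ℝ) ^ A.length • Φ A (c :: B)), ← Sh_sub]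
      congr 1
      funext A B
      simp only [d2]
      have e : dl (fun A' => (-1 : ℝ) ^ A'.length • Φ A' (c :: B)) A =
          -((-1 : ℝ) ^ A.length • dl (fun A' => Φ A' (c :: B)) A) := by
        rw [← dl_smul, ← dl_neg]
        refine dl_congr fun i hi => ?_
        rw [← length_face hi, pow_succ]
        simp
      rw [e, dl_cons, dl_smul]
      simp only [smul_add, smul_sub, smul_smul, ← mul_pow]
      norm_num
      abel

end

end Pool.Agent.Helper14.BC
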