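import Pool.Agent.Helper14.BC.Sd

/-!
# Project BC, block NECK: chain maps, homotopy, comparison
-/

set_option autoImplicit false

namespace Pool.Agent.Helper14.BC

open Pool.Agent.Helper11.BC

/-! ### linearity of the cone recursion -/

theorem sd_congr {ρ : List G → GP} {D : List G} {φ ψ : Fn}
    (h : ∀ l : List GP, l.length = D.length → φ l = ψ l) : sd ρ φ D = sd ρ ψ D := by
  have h1 := sd_abs (ρ := ρ) (D := D) (φ := fun l => φ l - ψ l) (c := 0) (fun l hl => by
    rw [h l hl, sub_self, abs_zero])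
  rw [mul_zero, sd_sub] at h1
  exact sub_eq_zero.1 (abs_nonpos_iff.1 h1)

theorem sd_add (ρ : List G → GP) (φ ψ : Fn) (D : List G) :
    sd ρ (fun l => φ l + ψ l) D = sd ρ φ D + sd ρ ψ D := by
  have h1 := sd_sub ρ (fun l => φ l + ψ l) ψ D
  have h2 : (fun l => φ l + ψ l - ψ l) = φ := by
    funext l
    ring
  rw [h2] at h1
  linarith

theorem sd_smul (ρ : List G → GP) (c : ℝ) (φ : Fn) (D : List G) :
    sd ρ (fun l => c * φ l) D = c * sd ρ φ D := by
  obtain ⟨n, hn⟩ : ∃ n, D.length = n := ⟨_, rfl⟩
  induction n generalizing D φ with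
  | zero =>
    rw [List.length_eq_zero_iff] at hn
    subst hn
    rfl
  | succ n ih =>
    have hD : D ≠ [] := by
      rintro rfl
      simp at hn
    rw [sd_ne hD, sd_ne hD, ← smul_eq_mul, ← dl_smul]
    exact dl_congr fun i hi => ih (cone (ρ D) φ) _ (by have := length_face hi; omega)

/-- the cone recursion as a linear map -/
noncomputable def sdL (ρ : List G → GP) (D : List G) : Fn →ₗ[ℝ] ℝ where
  toFun φ := sd ρ φ D
  map_add' φ ψ := sd_add ρ φ ψ D
  map_smul' c φ := sd_smul ρ c φ D

/-- the cone recursion commutes with alternating sums of functions -/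
theorem sd_dl_comm {T : Type*} (ρ : List G → GP) (D : List G) (F : List T → Fn) (l : List T) :
    sd ρ (fun m => dl (fun a => F a m) l) D = dl (fun a => sd ρ (F a) D) l := by
  have h1 : (fun m => dl (fun a => F a m) l) = dl F l := by
    funext m
    have h2 := dl_lin (LinearMap.proj (R := ℝ) (φ := fun _ : List GP => ℝ) m) F l
    exact h2
  rw [h1]
  exact (dl_lin (sdL ρ D) F l).symm

/-! ### `J2` -/

theorem J2_nil (n : G) (φ : Fn) (B : List G) : J2 n φ [] B = sdp n φ B := by
  simp [J2, sdm]

theorem J2_nil_right (n : G) (φ : Fn) (A : List G) : J2 n φ A [] = sdm n φ A := by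
  simp [J2, sdp]

theorem J2_single (n : G) (φ : Fn) (a : G) (B : List G) :
    J2 n φ [a] B = sdp n (cone (GP.bdp a) φ) B := by
  simp [J2, sdm, sd_single, rho]
  rfl

theorem J2_single_right (n : G) (φ : Fn) (A : List G) (b : G) :
    J2 n φ A [b] = sdm n (fun l => φ (l ++ [GP.bdp b])) A := by
  simp [J2, sdp, sd_single, rho]

theorem J2_sub (n : G) (φ ψ : Fn) (A B : List G) :
    J2 n (fun l => φ l - ψ l) A B = J2 n φ A B - J2 n ψ A B := by
  simp only [J2, sdp, sdm]
  rw [← sd_sub]
  congr 1
  funext l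
  rw [sd_sub]

theorem J2_cmp (R : GP → GP → Prop) (n n' : G) (A B : List G)
    (hA : ∀ E : List G, E.Sublist A → E ≠ [] → R (rho (opp n) E) (rho (opp n') E))
    (hB : ∀ E : List G, E.Sublist B → E ≠ [] → R (rho n E) (rho n' E)) (φ φ' : Fn) (c : ℝ)
    (hc : 0 ≤ c)
    (h : ∀ l l' : List GP, l.length = A.length + B.length → List.Forall₂ R l l' →
      |φ l - φ' l'| ≤ c) :
    |J2 n φ A B - J2 n' φ' A B| ≤ ((A.length + B.length).factorial : ℝ) * c := by
  have h1 : |J2 n φ A B - J2 n' φ' A B| ≤ (A.length.factorial : ℝ) * ((B.length.factorial : ℝ) * c) := by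
    refine sd_cmp R _ _ A hA _ _ _ fun l l' hl hr => ?_
    refine sd_cmp R _ _ B hB _ _ _ fun m m' hm hr' => ?_
    exact h _ _ (by rw [List.length_append, hl, hm]) (List.rel_append hr hr')
  have h2 : ((A.length.factorial : ℕ) : ℝ) * (B.length.factorial : ℝ) ≤
      ((A.length + B.length).factorial : ℝ) := by
    exact_mod_cast Nat.le_of_dvd (Nat.factorial_pos _)
      (Nat.factorial_mul_factorial_dvd_factorial_add _ _)
  calc _ ≤ _ := h1
    _ = ((A.length.factorial : ℝ) * (B.length.factorial : ℝ)) * c := by ring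
    _ ≤ _ := mul_le_mul_of_nonneg_right h2 hc

theorem J2_dl (n : G) (φ : Fn) (A B : List G) : J2 n (dl φ) A B = d2 (J2 n φ) A B := by
  have h1 : J2 n (dl φ) A B =
      sdm n (fun l => dl (fun a => sdp n (fun l' => φ (a ++ l')) B) l +
        (-1 : ℝ) ^ A.length * dl (fun B' => sdp n (fun l' => φ (l ++ l')) B') B) A := by
    refine sd_congr fun l hl => ?_
    have h2 : sdp n (fun l' => dl φ (l ++ l')) B =
        sdp n (fun l' => dl (fun a => φ (a ++ l')) l +
          (-1 : ℝ) ^ A.length * dl (fun b => φ (l ++ b)) l') B := by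
      congr 1
      funext l'
      rw [dl_append, hl, smul_eq_mul]
    rw [h2]
    have h3 := sd_add (rho n) (fun l' => dl (fun a => φ (a ++ l')) l)
      (fun l' => (-1 : ℝ) ^ A.length * dl (fun b => φ (l ++ b)) l') B
    refine h3.trans ?_
    congr 1
    · exact sd_dl_comm (rho n) B (fun a l' => φ (a ++ l')) l
    · rw [sd_smul]
      congr 1
      exact sd_dl (rho n) (fun b => φ (l ++ b)) B
  rw [h1]
  refine (sd_add _ _ _ _).trans ?_
  unfold d2
  congr 1
  · exact sd_dl (rho (opp n)) (fun a => sdp n (fun l' => φ (a ++ l')) B) A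
  · rw [sd_smul, smul_eq_mul]
    congr 1
    exact sd_dl_comm (rho (opp n)) A (fun B' l => sdp n (fun l' => φ (l ++ l')) B') B

/-! ### `S2` -/

theorem S2_small {n : G} {φ : Fn} {A B : List G} (h : A.length ≤ 1 ∨ B.length ≤ 1) :
    S2 n φ A B = J2 n φ A B := by
  unfold S2
  rcases hk : A.length + B.length with _ | k
  · rfl
  · simp only [S2k, h, if_true]

theorem S2_big {n : G} {φ : Fn} {A B : List G} (h : ¬ (A.length ≤ 1 ∨ B.length ≤ 1)) :
    S2 n φ A B = d2 (S2 n (cone (GP.int (neckMid A B)) φ)) A B := by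
  have h' := h
  push Not at h'
  obtain ⟨k, hk⟩ : ∃ k, A.length + B.length = k + 1 := ⟨A.length + B.length - 1, by omega⟩
  unfold S2
  rw [hk]
  simp only [S2k, h, if_false]
  refine d2_congr (fun i hi => ?_) (fun i hi => ?_)
  · have := length_face hi
    have e : (A.eraseIdx i).length + B.length = k := by omega
    rw [e]
  · have := length_face hi
    have e : A.length + (B.eraseIdx i).length = k := by omega
    rw [e]

theorem S2_sub (n : G) (φ ψ : Fn) (A B : List G) :
    S2 n (fun l => φ l - ψ l) A B = S2 n φ A B - S2 n ψ A B := by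
  obtain ⟨m, hm⟩ : ∃ m, A.length + B.length = m := ⟨_, rfl⟩
  induction m using Nat.strong_induction_on generalizing A B φ ψ with
  | _ m ih =>
  by_cases h : A.length ≤ 1 ∨ B.length ≤ 1
  · rw [S2_small h, S2_small h, S2_small h, J2_sub]
  · rw [S2_big h, S2_big h, S2_big h, ← d2_sub]
    refine d2_congr (fun i hi => ?_) (fun i hi => ?_)
    · have := length_face hi
      exact ih _ (by omega) (cone (GP.int (neckMid A B)) φ) (cone (GP.int (neckMid A B)) ψ) _ _ rfl
    · have := length_face hi
      exact ih _ (by omega) (cone (GP.int (neckMid A B)) φ) (cone (GP.int (neckMid A B)) ψ) _ _ rfl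

theorem S2_cmp (R : GP → GP → Prop) (hR : ∀ g, R (GP.int g) (GP.int g)) (n n' : G) (A B : List G)
    (hA : ∀ E : List G, E.Sublist A → E ≠ [] → R (rho (opp n) E) (rho (opp n') E))
    (hB : ∀ E : List G, E.Sublist B → E ≠ [] → R (rho n E) (rho n' E)) (φ φ' : Fn) (c : ℝ)
    (hc : 0 ≤ c)
    (h : ∀ l l' : List GP, l.length = A.length + B.length → List.Forall₂ R l l' →
      |φ l - φ' l'| ≤ c) :
    |S2 n φ A B - S2 n' φ' A B| ≤ ((A.length + B.length).factorial : ℝ) * c := by
  obtain ⟨m, hm⟩ : ∃ m, A.length + B.length = m := ⟨_, rfl⟩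
  induction m using Nat.strong_induction_on generalizing A B φ φ' with
  | _ m ih =>
  by_cases hAB : A.length ≤ 1 ∨ B.length ≤ 1
  · rw [S2_small hAB, S2_small hAB]
    exact J2_cmp R n n' A B hA hB φ φ' c hc h
  · rw [S2_big hAB, S2_big hAB, ← d2_sub]
    have hAB' := hAB
    push Not at hAB'
    obtain ⟨k, hk⟩ : ∃ k, A.length + B.length = k + 1 := ⟨A.length + B.length - 1, by omega⟩
    have hv := hR (neckMid A B)
    have h1 : ∀ i < A.length, |(fun a b => S2 n (cone (GP.int (neckMid A B)) φ) a b -
        S2 n' (cone (GP.int (neckMid A B)) φ') a b) (A.eraseIdx i) B| ≤ (k.factorial : ℝ) * c := by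
      intro i hi
      have hl := length_face hi
      have e : (A.eraseIdx i).length + B.length = k := by omega
      have h2 := ih k (by omega) (A.eraseIdx i) B
        (fun E hE hE0 => hA E (hE.trans (List.eraseIdx_sublist _ _)) hE0) hB
        (cone (GP.int (neckMid A B)) φ) (cone (GP.int (neckMid A B)) φ')
        (fun l l' hll hr => h _ _ (by rw [List.length_cons, hll]; omega) (List.Forall₂.cons hv hr)) e
      rw [e] at h2
      exact h2
    have h1' : ∀ i < B.length, |(fun a b => S2 n (cone (GP.int (neckMid A B)) φ) a b -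
        S2 n' (cone (GP.int (neckMid A B)) φ') a b) A (B.eraseIdx i)| ≤ (k.factorial : ℝ) * c := by
      intro i hi
      have hl := length_face hi
      have e : A.length + (B.eraseIdx i).length = k := by omega
      have h2 := ih k (by omega) A (B.eraseIdx i) hA
        (fun E hE hE0 => hB E (hE.trans (List.eraseIdx_sublist _ _)) hE0)
        (cone (GP.int (neckMid A B)) φ) (cone (GP.int (neckMid A B)) φ')
        (fun l l' hll hr => h _ _ (by rw [List.length_cons, hll]; omega) (List.Forall₂.cons hv hr)) e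
      rw [e] at h2
      exact h2
    have h3 := abs_d2_le (Φ := fun a b => S2 n (cone (GP.int (neckMid A B)) φ) a b -
        S2 n' (cone (GP.int (neckMid A B)) φ') a b) h1 h1'
    rw [hk] at h3 ⊢
    refine h3.trans (le_of_eq ?_)
    rw [Nat.factorial_succ]
    push_cast
    ring

theorem S2_dl (n : G) (φ : Fn) (A B : List G) : S2 n (dl φ) A B = d2 (S2 n φ) A B := by
  obtain ⟨m, hm⟩ : ∃ m, A.length + B.length = m := ⟨_, rfl⟩
  induction m using Nat.strong_induction_on generalizing A B φ with
  | _ m ih =>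
  by_cases h : A.length ≤ 1 ∨ B.length ≤ 1
  · rw [S2_small h, J2_dl]
    refine d2_congr (fun i hi => ?_) (fun i hi => ?_)
    · have := length_face hi
      exact (S2_small (by omega)).symm
    · have := length_face hi
      exact (S2_small (by omega)).symm
  · rw [S2_big h]
    have h1 : cone (GP.int (neckMid A B)) (dl φ) =
        fun l => φ l - dl (cone (GP.int (neckMid A B)) φ) l := by
      funext l
      exact dl_cons _ _ _
    rw [h1]
    have h2 : d2 (S2 n fun l => φ l - dl (cone (GP.int (neckMid A B)) φ) l) A B =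
        d2 (fun a b => S2 n φ a b - d2 (S2 n (cone (GP.int (neckMid A B)) φ)) a b) A B := by
      refine d2_congr (fun i hi => ?_) (fun i hi => ?_)
      · have := length_face hi
        rw [S2_sub, ih _ (by omega) (cone (GP.int (neckMid A B)) φ) _ _ rfl]
      · have := length_face hi
        rw [S2_sub, ih _ (by omega) (cone (GP.int (neckMid A B)) φ) _ _ rfl]
    rw [h2, d2_sub, d2_d2, sub_zero]

/-! ### `Sc` and `Lam` -/

@[simp] theorem Sc_nil (n : G) (A : Finset G) (φ : Fn) : Sc n A φ [] = φ [] := by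
  simp [Sc, Sh, S2, S2k, J2, sdm, sdp]

theorem Sc_dl (n : G) (A : Finset G) (φ : Fn) (C : List G) : Sc n A (dl φ) C = dl (Sc n A φ) C := by
  classical
  have h : S2 n (dl φ) = d2 (S2 n φ) := by
    funext a b
    exact S2_dl n φ a b
  unfold Sc
  rw [h]
  exact (dl_Sh (fun g => g ∈ A) C (S2 n φ)).symm

theorem Sc_sub (n : G) (A : Finset G) (φ ψ : Fn) (C : List G) :
    Sc n A (fun l => φ l - ψ l) C = Sc n A φ C - Sc n A ψ C := by
  classical
  have h : S2 n (fun l => φ l - ψ l) = fun a b => S2 n φ a b - S2 n ψ a b := by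
    funext a b
    exact S2_sub n φ ψ a b
  unfold Sc
  rw [h]
  exact Sh_sub (fun g => g ∈ A) C (S2 n φ) (S2 n ψ)

theorem length_filter_add {T : Type*} (P : T → Prop) [DecidablePred P] (C : List T) :
    (C.filter (fun c => P c)).length + (C.filter (fun c => ¬ P c)).length = C.length := by
  induction C with
  | nil => rfl
  | cons c C ih =>
    by_cases hc : P c
    · simp only [List.filter_cons, hc, decide_true, if_true, List.length_cons, not_true_eq_false,
        decide_false, Bool.false_eq_true, if_false]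
      omega
    · simp only [List.filter_cons, hc, decide_false, Bool.false_eq_true, if_false,
        not_false_eq_true, decide_true, if_true, List.length_cons]
      omega

theorem Sc_cmp (R : GP → GP → Prop) (hR : ∀ g, R (GP.int g) (GP.int g)) (n n' : G) (A : Finset G)
    (C : List G)
    (hA : ∀ E : List G, E.Sublist C → E ≠ [] → (∀ g ∈ E, g ∈ A) →
      R (rho (opp n) E) (rho (opp n') E))
    (hB : ∀ E : List G, E.Sublist C → E ≠ [] → (∀ g ∈ E, g ∉ A) → R (rho n E) (rho n' E))
    (φ φ' : Fn) (c : ℝ) (hc : 0 ≤ c)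
    (h : ∀ l l' : List GP, l.length = C.length → List.Forall₂ R l l' → |φ l - φ' l'| ≤ c) :
    |Sc n A φ C - Sc n' A φ' C| ≤ (C.length.factorial : ℝ) * c := by
  classical
  obtain ⟨ε, hε, hs⟩ := exists_sign (M := ℝ) (fun g => g ∈ A) C
  have e1 : Sc n A φ C = ε • S2 n φ (C.filter (fun g => g ∈ A)) (C.filter (fun g => ¬ g ∈ A)) := by
    unfold Sc
    convert hs (S2 n φ)
  have e2 : Sc n' A φ' C = ε • S2 n' φ' (C.filter (fun g => g ∈ A)) (C.filter (fun g => ¬ g ∈ A)) := by
    unfold Sc
    convert hs (S2 n' φ')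
  have hl := length_filter_add (fun g => g ∈ A) C
  rw [e1, e2, ← smul_sub, smul_eq_mul, abs_mul, hε, one_mul]
  have h1 := S2_cmp R hR n n' (C.filter (fun g => g ∈ A)) (C.filter (fun g => ¬ g ∈ A))
    (fun E hE hE0 => hA E (hE.trans (List.filter_sublist)) hE0 (fun g hg => by
      have := hE.subset hg
      simpa using (List.mem_filter.1 this).2))
    (fun E hE hE0 => hB E (hE.trans (List.filter_sublist)) hE0 (fun g hg => by
      have := hE.subset hg
      simpa using (List.mem_filter.1 this).2))
    φ φ' c hc (fun l l' hll hr => h l l' (hll.trans hl) hr)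
  rwa [hl] at h1

theorem Lam_ne {n : G} {A : Finset G} {φ : Fn} {D : List G} (h : D ≠ []) :
    Lam n A φ D = cone (GP.int (D.headD 1)) φ (D.map GP.int) -
      Sc n A (cone (GP.int (D.headD 1)) φ) D - dl (Lam n A (cone (GP.int (D.headD 1)) φ)) D := by
  obtain ⟨k, hk⟩ : ∃ k, D.length = k + 1 :=
    ⟨D.length - 1, by have := List.length_pos_iff.2 h; omega⟩
  unfold Lam
  rw [hk]
  simp only [Lamk]
  congr 1
  refine dl_congr fun i hi => ?_
  have := length_face hi
  have h2 : (D.eraseIdx i).length = k := by omega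
  rw [h2]

@[simp] theorem Lam_nil (n : G) (A : Finset G) (φ : Fn) : Lam n A φ [] = 0 := rfl

theorem Lam_sub (n : G) (A : Finset G) (φ ψ : Fn) (D : List G) :
    Lam n A (fun l => φ l - ψ l) D = Lam n A φ D - Lam n A ψ D := by
  obtain ⟨m, hm⟩ : ∃ m, D.length = m := ⟨_, rfl⟩
  induction m generalizing D φ ψ with
  | zero =>
    rw [List.length_eq_zero_iff] at hm
    subst hm
    simp
  | succ m ih =>
    have hD : D ≠ [] := by
      rintro rfl
      simp at hm
    rw [Lam_ne hD, Lam_ne hD, Lam_ne hD]
    have h1 : cone (GP.int (D.headD 1)) (fun l => φ l - ψ l) =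
      fun l => cone (GP.int (D.headD 1)) φ l - cone (GP.int (D.headD 1)) ψ l := rfl
    rw [h1]
    have h2 : dl (Lam n A fun l => cone (GP.int (D.headD 1)) φ l - cone (GP.int (D.headD 1)) ψ l) D =
        dl (Lam n A (cone (GP.int (D.headD 1)) φ)) D -
          dl (Lam n A (cone (GP.int (D.headD 1)) ψ)) D := by
      rw [← dl_sub]
      exact dl_congr fun i hi => ih _ _ _ (by have := length_face hi; omega)
    rw [h2, Sc_sub]
    ring

theorem Lam_cmp (R : GP → GP → Prop) (hR : ∀ g, R (GP.int g) (GP.int g)) (n n' : G) (A : Finset G)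
    (C : List G)
    (hA : ∀ E : List G, E.Sublist C → E ≠ [] → (∀ g ∈ E, g ∈ A) →
      R (rho (opp n) E) (rho (opp n') E))
    (hB : ∀ E : List G, E.Sublist C → E ≠ [] → (∀ g ∈ E, g ∉ A) → R (rho n E) (rho n' E))
    (φ φ' : Fn) (c : ℝ) (hc : 0 ≤ c)
    (h : ∀ l l' : List GP, l.length = C.length + 1 → List.Forall₂ R l l' → |φ l - φ' l'| ≤ c) :
    |Lam n A φ C - Lam n' A φ' C| ≤ 2 * (C.length : ℝ) * (C.length.factorial : ℝ) * c := by
  obtain ⟨m, hm⟩ : ∃ m, C.length = m := ⟨_, rfl⟩
  induction m generalizing C φ φ' with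
  | zero =>
    rw [List.length_eq_zero_iff] at hm
    subst hm
    simp
  | succ m ih =>
    have hC : C ≠ [] := by
      rintro rfl
      simp at hm
    rw [Lam_ne hC, Lam_ne hC]
    set v := GP.int (C.headD 1) with hv
    have hvv : R v v := hR _
    have h1 : |cone v φ (C.map GP.int) - cone v φ' (C.map GP.int)| ≤ c := by
      refine h _ _ (by simp) (List.Forall₂.cons hvv ?_)
      induction C with
      | nil => exact List.Forall₂.nil
      | cons x C _ =>
        clear * - hR
        induction (x :: C) with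
        | nil => exact List.Forall₂.nil
        | cons y C ih => exact List.Forall₂.cons (hR y) ih
    have h2 : |Sc n A (cone v φ) C - Sc n' A (cone v φ') C| ≤ (C.length.factorial : ℝ) * c :=
      Sc_cmp R hR n n' A C hA hB _ _ c hc fun l l' hl hr =>
        h _ _ (by rw [List.length_cons, hl]) (List.Forall₂.cons hvv hr)
    have h3 : |dl (fun D => Lam n A (cone v φ) D - Lam n' A (cone v φ') D) C| ≤
        (C.length : ℝ) * (2 * (m : ℝ) * (m.factorial : ℝ) * c) := by
      refine abs_dl_le (Φ := fun D => Lam n A (cone v φ) D - Lam n' A (cone v φ') D) fun i hi => ?_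
      have hl := length_face hi
      have hl' : (C.eraseIdx i).length = m := by omega
      have h4 := ih (C.eraseIdx i)
        (fun E hE hE0 hg => hA E (hE.trans (List.eraseIdx_sublist _ _)) hE0 hg)
        (fun E hE hE0 hg => hB E (hE.trans (List.eraseIdx_sublist _ _)) hE0 hg)
        (cone v φ) (cone v φ')
        (fun l l' hll hr => h _ _ (by rw [List.length_cons, hll]; omega)
          (List.Forall₂.cons hvv hr)) hl'
      rwa [hl'] at h4
    rw [dl_sub] at h3
    have hf : (1 : ℝ) ≤ (m.factorial : ℝ) := by exact_mod_cast Nat.one_le_iff_ne_zero.2 (Nat.factorial_ne_zero m)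
    have hF : ((m + 1).factorial : ℝ) = ((m : ℝ) + 1) * (m.factorial : ℝ) := by
      rw [Nat.factorial_succ]
      push_cast
      ring
    rw [hm] at h2 h3 ⊢
    push_cast at h3 ⊢
    rw [hF] at h2 ⊢
    have h5 : ∀ a b d a' b' d' : ℝ, |(a - b - d) - (a' - b' - d')| ≤ |a - a'| + |b - b'| + |d - d'| := by
      intro a b d a' b' d'
      rw [show (a - b - d) - (a' - b' - d') = (a - a') - (b - b') - (d - d') by ring]
      exact (abs_sub _ _).trans (add_le_add (abs_sub _ _) le_rfl)
    refine (h5 _ _ _ _ _ _).trans ((add_le_add (add_le_add h1 h2) h3).trans ?_)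
    have hm0 : (0 : ℝ) ≤ (m : ℝ) := Nat.cast_nonneg m
    have h6 : c ≤ ((m : ℝ) + 1) * (m.factorial : ℝ) * c := by
      have : 1 ≤ ((m : ℝ) + 1) * (m.factorial : ℝ) := by nlinarith
      nlinarith
    nlinarith

/-- The homotopy formula. -/
theorem Lam_dl (n : G) (A : Finset G) (φ : Fn) (D : List G) :
    Lam n A (dl φ) D = φ (D.map GP.int) - Sc n A φ D - dl (Lam n A φ) D := by
  obtain ⟨m, hm⟩ : ∃ m, D.length = m := ⟨_, rfl⟩
  induction m generalizing D φ with
  | zero =>
    rw [List.length_eq_zero_iff] at hm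
    subst hm
    simp
  | succ m ih =>
    have hD : D ≠ [] := by
      rintro rfl
      simp at hm
    rw [Lam_ne hD]
    set v := GP.int (D.headD 1) with hv
    have h1 : cone v (dl φ) = fun l => φ l - dl (cone v φ) l := by
      funext l
      exact dl_cons _ _ _
    rw [h1, Sc_sub, Sc_dl]
    have h2 : dl (Lam n A fun l => φ l - dl (cone v φ) l) D =
        dl (Lam n A φ) D - (dl (fun E => cone v φ (E.map GP.int)) D - dl (Sc n A (cone v φ)) D) := by
      have h3 : dl (Lam n A fun l => φ l - dl (cone v φ) l) D =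
          dl (fun E => Lam n A φ E - (cone v φ (E.map GP.int) - Sc n A (cone v φ) E -
            dl (Lam n A (cone v φ)) E)) D := by
        refine dl_congr fun i hi => ?_
        rw [Lam_sub, ih (cone v φ) _ (by have := length_face hi; omega)]
      rw [h3, dl_sub, dl_sub, dl_sub, dl_dl, sub_zero]
    rw [h2]
    simp only []
    rw [dl_map]
    ring

end Pool.Agent.Helper14.BC
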