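import Pool.Agent.Helper14.BC.Chain

/-!
# Project BC, block NECK, piece BCN-GR: growth, additivity, change of the end points

`gtd` is linear in `F`, and depends only on the values of `F · s t` on lists of length `N`
(`Lam_cmp`, `Sc_cmp`, `sd_abs` with `R = Eq`).  `|F X s t| ≤ C (1 + dist s t)` by `FA`, `A_growth`.
`gtd_add`: `Lam_sub`, `sd_sub` and the bounds with `c = 0` for
`φ X = F X s u - (F X s t + F X t u)` (`= 0` for `|X| = N`).
`gtd_ends`: `F X s t - F X s' t' = F X s s' + F X t' t` for `|X| = N` (additivity twice; `F X t' t = - F X t t'`).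
-/

set_option autoImplicit false

namespace Pool.Agent.Helper14.BC

open Pool.Agent.Helper11.BC

/-- `Xi` of a function bounded on lists of length `|C'| + 1`. -/
theorem Xi_abs {n : G} {A : Finset G} {φ : Fn} {C' : List G} {c : ℝ} (hc : 0 ≤ c)
    (h : ∀ l : List GP, l.length = C'.length + 1 → |φ l| ≤ c) :
    |Xi n A φ C'| ≤ (C'.length.factorial : ℝ) * c := by
  classical
  obtain ⟨ε, hε, hS⟩ := exists_sign (M := ℝ) (fun g => g ∈ A) C'
  have e : Xi n A φ C' = ε • Xi2 n φ (C'.filter (fun c => c ∈ A)) (C'.filter (fun c => ¬ c ∈ A)) := by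
    unfold Xi
    rw [← hS]
  have hlen : (C'.filter (fun c => c ∈ A)).length + (C'.filter (fun c => ¬ c ∈ A)).length =
      C'.length := by
    have h1 := List.length_eq_length_filter_add (l := C') (fun c => decide (c ∈ A))
    rw [h1]
    simp
  rw [e, smul_eq_mul, abs_mul, hε, one_mul]
  generalize (C'.filter (fun c => c ∈ A)) = A1 at *
  generalize (C'.filter (fun c => ¬ c ∈ A)) = B1 at *
  unfold Xi2
  split_ifs with h1 h2
  · subst h1
    rw [List.length_nil, zero_add] at hlen
    rw [← hlen]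
    refine sd_abs fun l hl => ?_
    refine h _ ?_
    rw [List.length_cons, hl, hlen]
  · subst h2
    rw [List.length_nil, add_zero] at hlen
    rw [abs_mul, abs_pow, abs_neg, abs_one, one_pow, one_mul, ← hlen]
    refine sd_abs fun l hl => ?_
    refine h _ ?_
    rw [List.length_append, hl, hlen]
    rfl
  · rw [abs_zero]
    positivity

private theorem Xi2_sub (n : G) (φ ψ : Fn) (A B : List G) :
    Xi2 n (fun l => φ l - ψ l) A B = Xi2 n φ A B - Xi2 n ψ A B := by
  unfold Xi2
  split_ifs with h1 h2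
  · exact sd_sub (rho n) (cone (GP.bdp n) φ) (cone (GP.bdp n) ψ) B
  · rw [← mul_sub]
    congr 1
    exact sd_sub (rho (opp n)) (fun l => φ (l ++ [GP.bdp (opp n)]))
      (fun l => ψ (l ++ [GP.bdp (opp n)])) A
  · rw [sub_zero]

theorem Xi_sub (n : G) (A : Finset G) (φ ψ : Fn) (C : List G) :
    Xi n A (fun l => φ l - ψ l) C = Xi n A φ C - Xi n A ψ C := by
  classical
  unfold Xi
  rw [← Sh_sub]
  congr 1
  funext a b
  exact Xi2_sub n φ ψ a b

/-- `Lam` of a function bounded on lists of length `|C'| + 1`. -/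
theorem Lam_abs {n : G} {A : Finset G} {φ : Fn} {C' : List G} {c : ℝ} (hc : 0 ≤ c)
    (h : ∀ l : List GP, l.length = C'.length + 1 → |φ l| ≤ c) :
    |Lam n A φ C'| ≤ 2 * (C'.length : ℝ) * (C'.length.factorial : ℝ) * c := by
  have h0 : Lam n A (fun _ => (0 : ℝ)) C' = 0 := by
    have h1 := Lam_sub n A φ φ C'
    simpa using h1
  have h1 := Lam_cmp Eq (fun _ => rfl) n n A C' (fun _ _ _ _ => rfl) (fun _ _ _ _ => rfl) φ
    (fun _ => (0 : ℝ)) c hc (fun l l' hl _ => by
      rw [sub_zero]
      exact h l hl)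
  rwa [h0, sub_zero] at h1

private noncomputable def tot (n : G) (A : Finset G) (φ : Fn) (C' : List G) : ℝ :=
  Lam n A φ C' + Xi n A φ C'

private theorem tot_sub (n : G) (A : Finset G) (φ ψ : Fn) (C' : List G) :
    tot n A (fun l => φ l - ψ l) C' = tot n A φ C' - tot n A ψ C' := by
  unfold tot
  rw [Lam_sub, Xi_sub]
  ring

private theorem tot_abs {n : G} {A : Finset G} {φ : Fn} {C' : List G} {c : ℝ} (hc : 0 ≤ c)
    (h : ∀ l : List GP, l.length = C'.length + 1 → |φ l| ≤ c) :
    |tot n A φ C'| ≤ (2 * (C'.length : ℝ) * (C'.length.factorial : ℝ) +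
      (C'.length.factorial : ℝ)) * c := by
  unfold tot
  refine (abs_add_le _ _).trans ?_
  have h1 := Lam_abs (n := n) (A := A) hc h
  have h2 := Xi_abs (n := n) (A := A) hc h
  linarith

theorem gtd_add {N : ℕ} (S : Sys N) (n : G) (A : Finset G) (C' : List G) (s t u : UpperHalfPlane)
    (h : C'.length + 1 = N) : gtd S n A C' s t + gtd S n A C' t u = gtd S n A C' s u := by
  have e : ∀ a b : UpperHalfPlane, gtd S n A C' a b = tot n A (fun X => S.F X a b) C' :=
    fun _ _ => rfl
  rw [e, e, e]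
  have h1 := tot_sub n A (fun X => S.F X s u) (fun X => S.F X s t) C'
  have h2 := tot_sub n A (fun X => S.F X s u - S.F X s t) (fun X => S.F X t u) C'
  have h3 := tot_abs (n := n) (A := A) (C' := C')
    (φ := fun X => S.F X s u - S.F X s t - S.F X t u) (le_refl (0 : ℝ)) (fun l hl => by
      have h4 := S.F_add l s t u (by omega)
      show |S.F l s u - S.F l s t - S.F l t u| ≤ 0
      rw [← h4]
      simp)
  rw [mul_zero] at h3
  have h4 := abs_eq_zero.1 (le_antisymm h3 (abs_nonneg _))
  rw [h4, h1] at h2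
  linarith

theorem gtd_growth {N : ℕ} (S : Sys N) : ∃ K : ℝ, 1 ≤ K ∧
    ∀ (n : G) (A : Finset G) (C' : List G) (s t : UpperHalfPlane), C'.length + 1 = N →
      |gtd S n A C' s t| ≤ K * (1 + dist s t) := by
  have hf : (1 : ℝ) ≤ ((N - 1).factorial : ℝ) := by
    exact_mod_cast Nat.succ_le_of_lt (Nat.factorial_pos _)
  have hC := S.one_le_C
  have hn : (0 : ℝ) ≤ ((N - 1 : ℕ) : ℝ) := Nat.cast_nonneg _
  refine ⟨(2 * ((N - 1 : ℕ) : ℝ) * ((N - 1).factorial : ℝ) + ((N - 1).factorial : ℝ)) * S.C, ?_, ?_⟩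
  · have h1 : (1 : ℝ) ≤ 2 * ((N - 1 : ℕ) : ℝ) * ((N - 1).factorial : ℝ) + ((N - 1).factorial : ℝ) := by
      have : 0 ≤ 2 * ((N - 1 : ℕ) : ℝ) * ((N - 1).factorial : ℝ) := by positivity
      linarith
    nlinarith
  · intro n A C' s t h
    have hl : C'.length = N - 1 := by omega
    have hd : (0 : ℝ) ≤ dist s t := dist_nonneg
    have h1 := tot_abs (n := n) (A := A) (C' := C') (φ := fun X => S.F X s t)
      (c := S.C * (1 + dist s t)) (by positivity) (fun l hl => by
        have h2 := S.FA l s t (by omega)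
        have h3 := S.A_growth l s t (by omega)
        show |S.F l s t| ≤ S.C * (1 + dist s t)
        have h4 : |S.F l s t| ≤ |S.F l s t - S.A l s t| + |S.A l s t| := by
          have := abs_add_le (S.F l s t - S.A l s t) (S.A l s t)
          simpa using this
        linarith)
    rw [hl] at h1
    have e : gtd S n A C' s t = tot n A (fun X => S.F X s t) C' := rfl
    rw [e, mul_assoc]
    exact h1

theorem gtd_ends {N : ℕ} (S : Sys N) : ∃ K : ℝ, 1 ≤ K ∧
    ∀ (n : G) (A : Finset G) (C' : List G) (s t s' t' : UpperHalfPlane), C'.length + 1 = N →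
      |gtd S n A C' s t - gtd S n A C' s' t'| ≤ K * (1 + dist s s' + dist t t') := by
  obtain ⟨K, hK, hg⟩ := gtd_growth S
  refine ⟨2 * K, by linarith, ?_⟩
  intro n A C' s t s' t' h
  have h1 := gtd_add S n A C' s s' t h
  have h2 := gtd_add S n A C' s' t' t h
  have h3 := hg n A C' s s' h
  have h4 := hg n A C' t' t h
  have e : gtd S n A C' s t - gtd S n A C' s' t' = gtd S n A C' s s' + gtd S n A C' t' t := by
    linarith
  rw [e]
  refine (abs_add_le _ _).trans ?_
  rw [dist_comm t' t] at h4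
  have h5 : 0 ≤ K * dist s s' := mul_nonneg (by linarith) dist_nonneg
  have h6 : 0 ≤ K * dist t t' := mul_nonneg (by linarith) dist_nonneg
  nlinarith

end Pool.Agent.Helper14.BC
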