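import Pool.Agent.Helper14.BC.Growth
import Pool.Agent.Helper14.BC.Flags
import Pool.Agent.Helper14.BC.LA
import Pool.Agent.H99.BC.RootClose

/-!
# Project BC, block NECK, piece BCN-LC: two frames, `Lam`

For `τ₂ - τ₁ < L₀(C₀)` use `gtd_growth` (both distances are bounded).  Otherwise replace first
`gam n' τ₁', gam n' τ₂'` by `gam n τ₁, gam n τ₂` with `gtd_ends`; put `φ X = S.F X (gam n τ₁) (gam n τ₂)`,
`L = τ₂ - τ₁`.
* `Lam`: `Lam_cmp` with `R p p' := p = p' ∨ ∃ g g', p = int g ∧ p' = int g' ∧ dist (pos g) (pos g') ≤ ε`,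
  `ε = K exp (-L)` (roots seen from the two frames, block GEO, Close), and `c = 2 C + N C L ε ≤ K'`
  (`FA`, `A_lip` point by point; the points `neckMid`, `int g`, `bdp g` do not depend on the frame).
* `Xi`: `exists_sign`; zero for mixed lists; for lists without elements of `A` compare
  `sdp n (cone (bdp n) φ) C'` with `sdp n (cone (bdp n') φ) C'` (`sdp_flag`, `LA1` for `zs = []`, `a = n`,
  `a' = n'` on the segment from `τ₁` to `τ₂ - C₀ - 2`, where `n'` is ahead; `φ` changes by `O(1)`), then with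
  `sdp n' (cone (bdp n') φ) C'` (`sd_cmp` with `R`).  Mirror image for lists of elements of `A`.
-/

set_option autoImplicit false

namespace Pool.Agent.Helper14.BC

open Pool.Agent.Helper11.BC

/-- the same point, or interior points at distance at most `δ` -/
private inductive LCR (δ : ℝ) : GP → GP → Prop
  | rfl (p : GP) : LCR δ p p
  | int {g h : G} : dist (pos g) (pos h) ≤ δ → LCR δ (GP.int g) (GP.int h)

private theorem LC_A_cmp {N : ℕ} (S : Sys N) {δ : ℝ} (hδ : 0 ≤ δ) (s t : UpperHalfPlane)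
    {X X' : List GP} (h : List.Forall₂ (LCR δ) X X') : ∀ pre : List GP, (pre ++ X).length = N →
      |S.A (pre ++ X) s t - S.A (pre ++ X') s t| ≤ X.length * (S.C * dist s t * δ) := by
  have hC : 0 ≤ S.C := le_trans zero_le_one S.one_le_C
  induction h with
  | nil =>
    intro pre _
    simp
  | @cons x x' X X' hx hX ih =>
    intro pre hl
    have h1 : |S.A (pre ++ x :: X) s t - S.A (pre ++ x' :: X) s t| ≤ S.C * dist s t * δ := by
      cases hx with
      | rfl =>
        rw [sub_self, abs_zero]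
        exact mul_nonneg (mul_nonneg hC dist_nonneg) hδ
      | int hd =>
        refine (S.A_lip pre X _ _ s t hl).trans ?_
        exact mul_le_mul_of_nonneg_left hd (mul_nonneg hC dist_nonneg)
    have h2 := ih (pre ++ [x']) (by
      rw [List.length_append, List.length_append, List.length_singleton]
      rw [List.length_append, List.length_cons] at hl
      omega)
    rw [List.append_assoc, List.append_assoc, List.singleton_append, List.singleton_append] at h2
    have h3 := abs_sub_le (S.A (pre ++ x :: X) s t) (S.A (pre ++ x' :: X) s t)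
      (S.A (pre ++ x' :: X') s t)
    rw [List.length_cons]
    push_cast
    linarith

private theorem LC_F_cmp {N : ℕ} (S : Sys N) {δ : ℝ} (hδ : 0 ≤ δ) (s t : UpperHalfPlane)
    {X X' : List GP} (hX : X.length = N) (h : List.Forall₂ (LCR δ) X X') :
    |S.F X s t - S.F X' s t| ≤ S.C * (2 + N * (dist s t * δ)) := by
  have hX' : X'.length = N := h.length_eq.symm.trans hX
  have h1 := LC_A_cmp S hδ s t h [] (by simpa using hX)
  rw [List.nil_append, List.nil_append, hX] at h1
  have h7 := S.FA X s t hX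
  have h8 := S.FA X' s t hX'
  rw [abs_le] at *
  constructor <;> linarith [h1.1, h1.2, h7.1, h7.2, h8.1, h8.2]

private theorem LC_growth {N : ℕ} (S : Sys N) {X : List GP} (s t : UpperHalfPlane)
    (hX : X.length = N) : |S.F X s t| ≤ S.C * (1 + dist s t) := by
  have h1 := S.FA X s t hX
  have h2 := S.A_growth X s t hX
  have h3 := abs_sub_abs_le_abs_sub (S.F X s t) (S.A X s t)
  linarith

private theorem LC_est (L : ℝ) : L * Real.exp (-L) ≤ 1 := by
  have h1 := Real.add_one_le_exp L
  have h2 : Real.exp L * Real.exp (-L) = 1 := by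
    rw [← Real.exp_add]
    simp
  have h3 := Real.exp_pos (-L)
  nlinarith

theorem Lam_close {N : ℕ} (S : Sys N) : ∀ C₀ : ℝ, ∃ K₀ : ℝ,
    ∀ (n n' : G) (τ₁ τ₂ τ₁' τ₂' : ℝ) (A : Finset G) (C' : List G),
    τ₁ ≤ τ₂ → τ₁' ≤ τ₂' → Generic C' → C'.length + 1 = N →
    (∀ g ∈ C', g ∈ A → Ahead n τ₂ g ∧ Ahead n' τ₂' g) →
    (∀ g ∈ C', g ∉ A → Behind n τ₁ g ∧ Behind n' τ₁' g) →
    dist (gam n τ₁) (gam n' τ₁') ≤ C₀ → dist (gam n τ₂) (gam n' τ₂') ≤ C₀ →
    |Lam n A (fun X => S.F X (gam n τ₁) (gam n τ₂)) C' -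
      Lam n' A (fun X => S.F X (gam n τ₁) (gam n τ₂)) C'| ≤ K₀ := by
  intro C₀
  have hC : 0 ≤ S.C := le_trans zero_le_one S.one_le_C
  obtain ⟨M, hM⟩ : ∃ M : ℝ, M = 2 * ((N - 1 : ℕ) : ℝ) * ((N - 1).factorial : ℝ) := ⟨_, rfl⟩
  have hM0 : 0 ≤ M := by
    rw [hM]
    positivity
  refine ⟨M * (S.C * (2 + N * (40 * Real.exp (3 * C₀)))) +
    2 * (M * (S.C * (1 + (3 * C₀ + 5)))), ?_⟩
  intro n n' τ₁ τ₂ τ₁' τ₂' A C' ht ht' hG hl hA hB hd1 hd2
  have h0 : 0 ≤ C₀ := dist_nonneg.trans hd1
  have hlen : C'.length = N - 1 := by omega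
  have hdist : dist (gam n τ₁) (gam n τ₂) = τ₂ - τ₁ := by
    rw [Pool.Agent.H99.BC.dist_gam, abs_sub_comm, abs_of_nonneg (by linarith)]
  rcases lt_or_ge (τ₂ - τ₁) (3 * C₀ + 5) with hL | hL
  · have hφ : ∀ l : List GP, l.length = C'.length + 1 →
        |(fun X => S.F X (gam n τ₁) (gam n τ₂)) l| ≤ S.C * (1 + (3 * C₀ + 5)) := by
      intro l hll
      refine (LC_growth S _ _ (hll.trans hl)).trans (mul_le_mul_of_nonneg_left ?_ hC)
      rw [hdist]
      linarith
    have hc0 : 0 ≤ S.C * (1 + (3 * C₀ + 5)) := mul_nonneg hC (by linarith)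
    have h1 := Lam_abs (n := n) (A := A) hc0 hφ
    have h2 := Lam_abs (n := n') (A := A) hc0 hφ
    rw [hlen, ← hM] at h1 h2
    have h3 := abs_sub (Lam n A (fun X => S.F X (gam n τ₁) (gam n τ₂)) C')
      (Lam n' A (fun X => S.F X (gam n τ₁) (gam n τ₂)) C')
    have h4 : 0 ≤ M * (S.C * (2 + N * (40 * Real.exp (3 * C₀)))) := by positivity
    linarith
  · obtain ⟨δ, hδ⟩ : ∃ δ : ℝ, δ = 40 * Real.exp (3 * C₀) * Real.exp (-(τ₂ - τ₁)) := ⟨_, rfl⟩
    have hδ0 : 0 ≤ δ := by
      rw [hδ]
      positivity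
    have hR : ∀ g, LCR δ (GP.int g) (GP.int g) := fun g => LCR.rfl _
    have hsub : ∀ E : List G, E.Sublist C' → Generic E := fun E hE => List.Pairwise.sublist hE hG
    have hRA : ∀ E : List G, E.Sublist C' → E ≠ [] → (∀ g ∈ E, g ∈ A) →
        LCR δ (rho (opp n) E) (rho (opp n') E) := by
      intro E hE _ hEA
      unfold rho
      split_ifs with h1
      · exact LCR.rfl _
      · refine LCR.int ?_
        have h2 := Pool.Agent.H99.BC.root_close (n := opp n) (n' := opp n') (τ₁ := -τ₂)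
          (τ₂ := -τ₁) (τ₁' := -τ₂') (τ₂' := -τ₁') h0 (by linarith) (by linarith)
          (by
            rw [Pool.Agent.H99.BC.gam_flip, Pool.Agent.H99.BC.gam_flip, neg_neg, neg_neg]
            exact hd2)
          (by
            rw [Pool.Agent.H99.BC.gam_flip, Pool.Agent.H99.BC.gam_flip, neg_neg, neg_neg]
            exact hd1)
          (by linarith) (hsub E hE) (by omega)
          (fun g hg => (Pool.Agent.H99.BC.behind_flip n g (-τ₂)).2 (by
            rw [neg_neg]
            exact (hA g (hE.subset hg) (hEA g hg)).1))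
          (fun g hg => (Pool.Agent.H99.BC.behind_flip n' g (-τ₂')).2 (by
            rw [neg_neg]
            exact (hA g (hE.subset hg) (hEA g hg)).2))
        refine h2.trans (le_of_eq ?_)
        rw [hδ]
        congr 2
        ring
    have hRB : ∀ E : List G, E.Sublist C' → E ≠ [] → (∀ g ∈ E, g ∉ A) →
        LCR δ (rho n E) (rho n' E) := by
      intro E hE _ hEA
      unfold rho
      split_ifs with h1
      · exact LCR.rfl _
      · refine LCR.int ?_
        rw [hδ]
        exact Pool.Agent.H99.BC.root_close h0 ht ht' hd1 hd2 hL (hsub E hE) (by omega)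
          (fun g hg => (hB g (hE.subset hg) (hEA g hg)).1)
          (fun g hg => (hB g (hE.subset hg) (hEA g hg)).2)
    have hest := LC_est (τ₂ - τ₁)
    have hc : ∀ l l' : List GP, l.length = C'.length + 1 → List.Forall₂ (LCR δ) l l' →
        |(fun X => S.F X (gam n τ₁) (gam n τ₂)) l - (fun X => S.F X (gam n τ₁) (gam n τ₂)) l'| ≤
          S.C * (2 + N * (40 * Real.exp (3 * C₀))) := by
      intro l l' hll hr
      refine (LC_F_cmp S hδ0 _ _ (hll.trans hl) hr).trans (mul_le_mul_of_nonneg_left ?_ hC)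
      have h1 : dist (gam n τ₁) (gam n τ₂) * δ ≤ 40 * Real.exp (3 * C₀) := by
        rw [hdist, hδ]
        have h2 : 0 ≤ 40 * Real.exp (3 * C₀) := by positivity
        calc (τ₂ - τ₁) * (40 * Real.exp (3 * C₀) * Real.exp (-(τ₂ - τ₁)))
            = 40 * Real.exp (3 * C₀) * ((τ₂ - τ₁) * Real.exp (-(τ₂ - τ₁))) := by ring
          _ ≤ 40 * Real.exp (3 * C₀) * 1 := mul_le_mul_of_nonneg_left hest h2
          _ = _ := mul_one _
      have h3 := mul_le_mul_of_nonneg_left h1 (Nat.cast_nonneg (α := ℝ) N)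
      linarith
    have h1 := Lam_cmp (LCR δ) hR n n' A C' hRA hRB _ _ _ (by positivity) hc
    rw [hlen, ← hM] at h1
    have h2 : 0 ≤ M * (S.C * (1 + (3 * C₀ + 5))) :=
      mul_nonneg hM0 (mul_nonneg hC (by linarith))
    linarith

end Pool.Agent.Helper14.BC
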