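import Pool.Agent.Helper14.BC.Chain
import Pool.Agent.Helper14.BC.Flags
import Pool.Agent.Helper14.BC.LA

/-!
# Project BC, block NECK, pieces BCN-MX, BCN-AB

`mixed` (BCN-MX): strong induction on `|A| + |B|`, generalising `zs`.  `S2_big`:
`S2 n φ A B = d2 (S2 n (cone (npt (A, B)) φ)) A B`, and `cone (npt (A, B))` of the function with first points `zs`
is the function with first points `zs ++ [(A, B)]`.  If `|A| ≥ 3` every face `(A.eraseIdx i, B)` is done by
induction.  If `A = [a, a']` the two faces give `J2 [a'] B - J2 [a] B = sdp n (cone (bdp a') ψ) B -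
sdp n (cone (bdp a) ψ) B`, bounded by `sdp_flag` and `LA1`.  The same for `B` with `LA2`.
With `K₁, K₂` from `LA1, LA2` the bound `(|A| + |B|)! (K₁ + K₂)` works.

`neckAB` (BCN-AB): put `φ X = S.F X (gam n τ₁) (gam n τ₂)`.
* `A = []`: `S2 = sdp n φ B`, `d2 (Xi2 n φ) [] B = dl (sdp n (cone (bdp n) φ)) B`
  `= sdp n (dl (cone (bdp n) φ)) B`, and `dl φ (bdp n :: l) = φ l - dl (cone (bdp n) φ) l`, so the difference is
  `sdp n (cone (bdp n) (dl φ)) B`, bounded since `|dl φ Y| = |f0 s Y - f0 t Y| ≤ 2 C` for `|Y| = N + 1`.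
* `B = []`: `S2 = sdm n φ A`; `|A| = N ≥ 3`, so all faces are nonempty and
  `d2 (Xi2 n φ) A [] = (-1)^(N-1) sdm n (dl (fun l => φ (l ++ [w]))) A`, `w = bdp (opp n)`;
  `dl_append_singleton` gives the difference `(-1)^N sdm n (fun l => dl φ (l ++ [w])) A`.
* `A = [a]` (`|B| ≥ 2`): `S2 = sdp n (cone (bdp a) φ) B`, `d2 (Xi2 n φ) [a] B = sdp n (cone (bdp n) φ) B`
  (the faces `(A | B')` have both sides nonempty); `sdp_flag` and `LA1` with `zs = []`, `a' = n`
  (`Ahead n τ₂ n` is trivial).
* `B = [b]` (`|A| ≥ 2`): `S2 = sdm n (fun l => φ (l ++ [bdp b])) A`,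
  `d2 (Xi2 n φ) A [b] = sdm n (fun l => φ (l ++ [bdp (opp n)])) A`; `sdp_flag` (for `opp n`) and `LA2`.
* `|A|, |B| ≥ 2`: `d2 (Xi2 n φ) A B = 0` and `mixed` with `zs = []`.
-/

set_option autoImplicit false

namespace Pool.Agent.Helper14.BC

open Pool.Agent.Helper11.BC

private theorem sub_face {n : G} {τ₁ τ₂ : ℝ} {A B A' B' : List G} (h : NeckOK n τ₁ τ₂ A B)
    (hA : A'.Sublist A) (hB : B'.Sublist B) (hA2 : 2 ≤ A'.length) (hB2 : 2 ≤ B'.length) :
    NeckOK n τ₁ τ₂ A' B' where
  hA := hA2
  hB := hB2
  gA := List.Pairwise.sublist hA h.gA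
  gB := List.Pairwise.sublist hB h.gB
  ah := fun a ha => h.ah a (hA.subset ha)
  be := fun b hb => h.be b (hB.subset hb)

private theorem fact_le {k m : ℕ} (h : k ≤ m) {K K' : ℝ} (hK : 0 ≤ K) (hKK : K ≤ K') :
    (k.factorial : ℝ) * K ≤ (m.factorial : ℝ) * K' := by
  have h1 : (k.factorial : ℝ) ≤ (m.factorial : ℝ) := by exact_mod_cast Nat.factorial_le h
  have h2 : (0 : ℝ) ≤ (m.factorial : ℝ) := by positivity
  exact mul_le_mul h1 hKK hK h2

theorem mixed {N : ℕ} (S : Sys N) : ∃ K : ℝ, 1 ≤ K ∧
    ∀ (n : G) (τ₁ τ₂ : ℝ) (zs : List (List G × List G)) (A B : List G),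
      τ₁ ≤ τ₂ → zs.length + A.length + B.length = N → NeckOK n τ₁ τ₂ A B →
      (∀ z ∈ zs, NeckOK n τ₁ τ₂ z.1 z.2 ∧ A.Sublist z.1 ∧ B.Sublist z.2) →
      |S2 n (fun l => S.F (zs.map npt ++ l) (gam n τ₁) (gam n τ₂)) A B| ≤ K := by
  obtain ⟨K₁, hK₁, h1⟩ := LA1 S
  obtain ⟨K₂, hK₂, h2⟩ := LA2 S
  have key : ∀ (m : ℕ) (n : G) (τ₁ τ₂ : ℝ) (zs : List (List G × List G)) (A B : List G),
      A.length + B.length = m →
      τ₁ ≤ τ₂ → zs.length + A.length + B.length = N → NeckOK n τ₁ τ₂ A B →
      (∀ z ∈ zs, NeckOK n τ₁ τ₂ z.1 z.2 ∧ A.Sublist z.1 ∧ B.Sublist z.2) →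
      |S2 n (fun l => S.F (zs.map npt ++ l) (gam n τ₁) (gam n τ₂)) A B| ≤
        (m.factorial : ℝ) * (K₁ + K₂) := by
    intro m
    induction m with
    | zero =>
      intro n τ₁ τ₂ zs A B hm hτ hN hOK hzs
      have := hOK.hA
      omega
    | succ m ih =>
      intro n τ₁ τ₂ zs A B hm hτ hN hOK hzs
      have hAl := hOK.hA
      have hBl := hOK.hB
      have hφ : cone (GP.int (neckMid A B))
          (fun l => S.F (zs.map npt ++ l) (gam n τ₁) (gam n τ₂)) =
          fun l => S.F ((zs ++ [(A, B)]).map npt ++ l) (gam n τ₁) (gam n τ₂) := by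
        funext l
        simp [cone, npt]
      have hzs' : ∀ (A' B' : List G), A'.Sublist A → B'.Sublist B → ∀ z ∈ zs ++ [(A, B)],
          NeckOK n τ₁ τ₂ z.1 z.2 ∧ A'.Sublist z.1 ∧ B'.Sublist z.2 := by
        intro A' B' hA' hB' z hz
        rw [List.mem_append, List.mem_singleton] at hz
        rcases hz with hz | rfl
        · obtain ⟨h3, h4, h5⟩ := hzs z hz
          exact ⟨h3, hA'.trans h4, hB'.trans h5⟩
        · exact ⟨hOK, hA', hB'⟩
      have hlen : (zs ++ [(A, B)]).length = zs.length + 1 := by simp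
      rw [S2_big (by omega), hφ]
      set zs' := zs ++ [(A, B)] with hzsdef
      have hc0 : 0 ≤ (m.factorial : ℝ) * (K₁ + K₂) := by positivity
      -- the faces of `A`
      have hPA : |dl (fun A' => S2 n (fun l => S.F (zs'.map npt ++ l) (gam n τ₁) (gam n τ₂)) A' B) A|
          ≤ A.length * ((m.factorial : ℝ) * (K₁ + K₂)) := by
        by_cases hA3 : 3 ≤ A.length
        · refine abs_dl_le fun i hi => ?_
          have hl := length_face hi
          have hsub := List.eraseIdx_sublist A i
          exact ih n τ₁ τ₂ zs' (A.eraseIdx i) B (by omega) hτ (by omega)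
            (sub_face hOK hsub (List.Sublist.refl _) (by omega) hBl)
            (hzs' _ _ hsub (List.Sublist.refl _))
        · obtain ⟨a, a', rfl⟩ : ∃ a a', A = [a, a'] := List.length_eq_two.1 (by omega)
          have e : dl (fun A' => S2 n (fun l => S.F (zs'.map npt ++ l) (gam n τ₁) (gam n τ₂)) A' B)
              [a, a'] =
              sdp n (cone (GP.bdp a') fun l => S.F (zs'.map npt ++ l) (gam n τ₁) (gam n τ₂)) B -
              sdp n (cone (GP.bdp a) fun l => S.F (zs'.map npt ++ l) (gam n τ₁) (gam n τ₂)) B := by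
            rw [dl_cons, dl_cons, dl_nil, sub_zero, S2_small (Or.inl (by simp)),
              S2_small (Or.inl (by simp)), J2_single, J2_single]
          have h3 : |sdp n (cone (GP.bdp a') fun l =>
                S.F (zs'.map npt ++ l) (gam n τ₁) (gam n τ₂)) B -
              sdp n (cone (GP.bdp a) fun l => S.F (zs'.map npt ++ l) (gam n τ₁) (gam n τ₂)) B| ≤
              (B.length.factorial : ℝ) * K₁ := by
            refine sdp_flag n _ _ B (by rintro rfl; simp at hBl) K₁ fun Ds b hb hDs hDl => ?_
            exact h1 n τ₁ τ₂ zs' Ds a' a b hτ (by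
                rw [hlen]
                simp only [List.length_cons, List.length_nil] at hN
                omega) (hOK.ah a' (by simp)) (hOK.ah a (by simp)) (hOK.be b hb)
              (fun z hz => by
                obtain ⟨h4, h5, h6⟩ := hzs' _ _ (List.Sublist.refl _) (List.Sublist.refl _) z hz
                exact ⟨h4, h5.subset (by simp), h5.subset (by simp), h6.subset hb⟩)
              (fun E hE => by
                obtain ⟨h4, h5, h6⟩ := hDs E hE
                exact ⟨fun g hg => hOK.be g (h4.subset hg), List.Pairwise.sublist h4 hOK.gB, h6, h5⟩)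
          rw [e]
          refine h3.trans ?_
          have h4 : (B.length.factorial : ℝ) * K₁ ≤ (m.factorial : ℝ) * (K₁ + K₂) := by
            refine fact_le ?_ (by linarith) (by linarith)
            simp only [List.length_cons, List.length_nil] at hm
            omega
          refine h4.trans (le_mul_of_one_le_left hc0 ?_)
          norm_num
      -- the faces of `B`
      have hPB : |dl (fun B' => S2 n (fun l => S.F (zs'.map npt ++ l) (gam n τ₁) (gam n τ₂)) A B') B|
          ≤ B.length * ((m.factorial : ℝ) * (K₁ + K₂)) := by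
        by_cases hB3 : 3 ≤ B.length
        · refine abs_dl_le fun i hi => ?_
          have hl := length_face hi
          have hsub := List.eraseIdx_sublist B i
          exact ih n τ₁ τ₂ zs' A (B.eraseIdx i) (by omega) hτ (by omega)
            (sub_face hOK (List.Sublist.refl _) hsub hAl (by omega))
            (hzs' _ _ (List.Sublist.refl _) hsub)
        · obtain ⟨b, b', rfl⟩ : ∃ b b', B = [b, b'] := List.length_eq_two.1 (by omega)
          have e : dl (fun B' => S2 n (fun l => S.F (zs'.map npt ++ l) (gam n τ₁) (gam n τ₂)) A B')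
              [b, b'] =
              sdp (opp n) (fun l => S.F (zs'.map npt ++ (l ++ [GP.bdp b'])) (gam n τ₁) (gam n τ₂)) A -
              sdp (opp n) (fun l => S.F (zs'.map npt ++ (l ++ [GP.bdp b])) (gam n τ₁) (gam n τ₂)) A := by
            rw [dl_cons, dl_cons, dl_nil, sub_zero, S2_small (Or.inr (by simp)),
              S2_small (Or.inr (by simp)), J2_single_right, J2_single_right]
            rfl
          have h3 : |sdp (opp n) (fun l =>
                S.F (zs'.map npt ++ (l ++ [GP.bdp b'])) (gam n τ₁) (gam n τ₂)) A -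
              sdp (opp n) (fun l => S.F (zs'.map npt ++ (l ++ [GP.bdp b])) (gam n τ₁) (gam n τ₂)) A| ≤
              (A.length.factorial : ℝ) * K₂ := by
            refine sdp_flag (opp n) _ _ A (by rintro rfl; simp at hAl) K₂ fun Ds a ha hDs hDl => ?_
            have h7 := h2 n τ₁ τ₂ zs' Ds a b' b hτ (by
                rw [hlen]
                simp only [List.length_cons, List.length_nil] at hN
                omega) (hOK.ah a ha) (hOK.be b' (by simp)) (hOK.be b (by simp))
              (fun z hz => by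
                obtain ⟨h4, h5, h6⟩ := hzs' _ _ (List.Sublist.refl _) (List.Sublist.refl _) z hz
                exact ⟨h4, h5.subset ha, h6.subset (by simp), h6.subset (by simp)⟩)
              (fun E hE => by
                obtain ⟨h4, h5, h6⟩ := hDs E hE
                exact ⟨fun g hg => hOK.ah g (h4.subset hg), List.Pairwise.sublist h4 hOK.gA, h6, h5⟩)
            simp only [List.append_assoc, List.cons_append, List.nil_append]
            exact h7
          rw [e]
          refine h3.trans ?_
          have h4 : (A.length.factorial : ℝ) * K₂ ≤ (m.factorial : ℝ) * (K₁ + K₂) := by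
            refine fact_le ?_ (by linarith) (by linarith)
            simp only [List.length_cons, List.length_nil] at hm
            omega
          refine h4.trans (le_mul_of_one_le_left hc0 ?_)
          norm_num
      unfold d2
      refine (abs_add_le _ _).trans ?_
      rw [smul_eq_mul, abs_mul, abs_pow, abs_neg, abs_one, one_pow, one_mul]
      refine (add_le_add hPA hPB).trans (le_of_eq ?_)
      rw [← add_mul, Nat.factorial_succ, ← hm]
      push_cast
      ring
  refine ⟨(N.factorial : ℝ) * (K₁ + K₂), ?_, ?_⟩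
  · have h3 : (1 : ℝ) ≤ (N.factorial : ℝ) := by exact_mod_cast Nat.factorial_pos N
    nlinarith
  · intro n τ₁ τ₂ zs A B hτ hN hOK hzs
    refine (key _ n τ₁ τ₂ zs A B rfl hτ hN hOK hzs).trans ?_
    exact fact_le (by omega) (by linarith) le_rfl

end Pool.Agent.Helper14.BC
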